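import Pool.Agent.K9h59.BC.Key
import Pool.Agent.K9h59.BC.Stm2

set_option autoImplicit false

namespace Pool.Agent.K9h59.BC

open Finset Filter Topology

/-- `n choose 2` determines `n` -/
theorem cnt_inj {n m : ℕ} (hn : 4 ≤ n) (hm : 4 ≤ m) (h : n.choose 2 = m.choose 2) : n = m := by
  have h1 : ((n.choose 2 : ℕ) : ℝ) = ((m.choose 2 : ℕ) : ℝ) := by rw [h]
  rw [Nat.cast_choose_two, Nat.cast_choose_two] at h1
  have hn' : (4 : ℝ) ≤ n := by exact_mod_cast hn
  have hm' : (4 : ℝ) ≤ m := by exact_mod_cast hm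
  have h2 : ((n : ℝ) - m) * (n + m - 1) = 0 := by nlinarith
  rcases mul_eq_zero.1 h2 with h3 | h3
  · have : (n : ℝ) = m := by linarith
    exact_mod_cast this
  · linarith

/-- the analytic part -/
theorem cnt_block (c : ℝ) (hc : 0 < c) (U : ℕ) (ε : ℝ) (hε : 0 < ε) (hU : 4 / ε ≤ U + 2)
    (L Λ r : ℝ) (hL : 1 ≤ L) (hΛ : 0 < Λ) (hr : 0 ≤ r) (h1 : r * Λ ≤ 2 * L) (h2 : c * Λ ^ U ≤ r ^ 2) :
    Λ ≤ max 1 (4 / c) * L ^ (ε / 2) := by
  by_contra hcon
  push Not at hcon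
  set D := max 1 (4 / c) with hD
  have hD1 : 1 ≤ D := le_max_left _ _
  have hD2 : 4 / c ≤ D := le_max_right _ _
  have hL0 : 0 < L := by linarith
  have h3 : (D * L ^ (ε / 2)) ^ (U + 2) < Λ ^ (U + 2) :=
    pow_lt_pow_left₀ hcon (by positivity) (by omega)
  have h4 : D * L ^ 2 ≤ (D * L ^ (ε / 2)) ^ (U + 2) := by
    rw [mul_pow]
    apply mul_le_mul _ _ (by positivity) (by positivity)
    · calc D = D ^ 1 := (pow_one D).symm
        _ ≤ D ^ (U + 2) := pow_le_pow_right₀ hD1 (by omega)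
    · rw [← Real.rpow_natCast, ← Real.rpow_natCast (L ^ (ε / 2)), ← Real.rpow_mul hL0.le]
      apply Real.rpow_le_rpow_of_exponent_le hL
      push_cast
      rw [div_le_iff₀ hε] at hU
      nlinarith
  have h5 : c * Λ ^ (U + 2) ≤ (2 * L) ^ 2 := by
    calc c * Λ ^ (U + 2) = (c * Λ ^ U) * Λ ^ 2 := by ring
      _ ≤ r ^ 2 * Λ ^ 2 := by gcongr
      _ = (r * Λ) ^ 2 := by ring
      _ ≤ (2 * L) ^ 2 := pow_le_pow_left₀ (by positivity) h1 2
  have h6 : 4 ≤ D * c := by rwa [div_le_iff₀ hc] at hD2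
  have h7 : c * (D * L ^ 2) < (2 * L) ^ 2 := by
    calc c * (D * L ^ 2) ≤ c * (D * L ^ (ε / 2)) ^ (U + 2) := by gcongr
      _ < c * Λ ^ (U + 2) := by gcongr
      _ ≤ _ := h5
  have h8 : 4 * L ^ 2 ≤ (D * c) * L ^ 2 := by gcongr
  nlinarith

theorem cnt_bd (n : ℕ) (hn : 4 ≤ n) (x : ℝ) (hx : (n : ℝ) ≤ x) (i r : ℕ)
    (hp : n.choose 2 = ∏ k ∈ range r, Nat.nth Nat.Prime (i + k)) :
    (r : ℝ) * Real.log (Nat.nth Nat.Prime i) ≤ 2 * Real.log x := by
  have hn' : (4 : ℝ) ≤ n := by exact_mod_cast hn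
  have hx0 : 0 < x := by linarith
  have hP0 : (0 : ℝ) < Nat.nth Nat.Prime i := by have := key_two i; linarith
  have h1 : ((Nat.nth Nat.Prime i : ℝ)) ^ r ≤ x ^ 2 := by
    have h2 : (Nat.nth Nat.Prime i) ^ r ≤ ∏ k ∈ range r, Nat.nth Nat.Prime (i + k) := by
      have := Finset.pow_card_le_prod (range r) (fun k => Nat.nth Nat.Prime (i + k)) (Nat.nth Nat.Prime i)
        (fun k _ => key_mono.monotone (Nat.le_add_right i k))
      rwa [card_range] at this
    have h3 : (n.choose 2 : ℝ) ≤ x ^ 2 := by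
      rw [Nat.cast_choose_two]
      nlinarith
    calc ((Nat.nth Nat.Prime i : ℝ)) ^ r = (((Nat.nth Nat.Prime i) ^ r : ℕ) : ℝ) := by push_cast; rfl
      _ ≤ (n.choose 2 : ℝ) := by rw [hp]; exact_mod_cast h2
      _ ≤ _ := h3
  have h4 := Real.log_le_log (by positivity) h1
  rw [Real.log_pow, Real.log_pow] at h4
  push_cast at h4
  linarith

open Classical in
theorem cnt_main (hK : S_KEY) (ε : ℝ) (hε : 0 < ε) : ∀ᶠ x : ℝ in atTop,
    (((Icc 4 ⌊x⌋₊).filter (fun n => ∃ i r, n.choose 2 = ∏ k ∈ range r, Nat.nth Nat.Prime (i + k))).card : ℝ) ≤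
      Real.exp (Real.log x ^ ε) := by
  obtain ⟨U, hU⟩ := exists_nat_ge (4 / ε)
  obtain ⟨c, hc, hk⟩ := hK U
  set D := max 1 (4 / c) with hD
  have hD1 : 1 ≤ D := le_max_left _ _
  have hyT : Tendsto (fun x : ℝ => Real.log x ^ (ε / 2)) atTop atTop :=
    (tendsto_rpow_atTop (by positivity)).comp Real.tendsto_log_atTop
  have hlog : ∀ᶠ x : ℝ in atTop, Real.log (Real.log x) ≤ Real.log x ^ (ε / 2) := by
    have h1 := (isLittleO_log_rpow_atTop (half_pos hε)).bound one_pos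
    have h2 := Real.tendsto_log_atTop.eventually h1
    filter_upwards [h2, hyT.eventually_ge_atTop 0] with x hx h0
    rw [one_mul, Real.norm_eq_abs, Real.norm_eq_abs, abs_of_nonneg h0] at hx
    exact (le_abs_self _).trans hx
  filter_upwards [hlog, hyT.eventually_ge_atTop (D + 4), Real.tendsto_log_atTop.eventually_ge_atTop 1,
    eventually_ge_atTop 4] with x hx1 hx2 hx3 hx4
  set L := Real.log x with hL
  set y := L ^ (ε / 2) with hy
  have hL0 : 0 < L := by linarith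
  set S := (Icc 4 ⌊x⌋₊).filter (fun n => ∃ i r, n.choose 2 = ∏ k ∈ range r, Nat.nth Nat.Prime (i + k)) with hS
  have hmem : ∀ n ∈ S, 4 ≤ n ∧ (n : ℝ) ≤ x ∧
      ∃ i r, n.choose 2 = ∏ k ∈ range r, Nat.nth Nat.Prime (i + k) := by
    intro n hn
    rw [hS, mem_filter, mem_Icc] at hn
    exact ⟨hn.1.1, (Nat.le_floor_iff (by linarith)).1 hn.1.2, hn.2⟩
  choose! f g hfg using fun n (hn : n ∈ S) => (hmem n hn).2.2
  have hbd : ∀ n ∈ S, (f n : ℝ) ≤ Real.exp (D * y) ∧ (g n : ℝ) ≤ 3 * L := by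
    intro n hn
    obtain ⟨h4, hnx, -⟩ := hmem n hn
    have h1 := cnt_bd n h4 x hnx (f n) (g n) (hfg n hn)
    have h2 := hk n h4 (f n) (g n) (hfg n hn)
    have h3 := key_log_pos (f n)
    have h5 := cnt_block c hc U ε hε (by linarith) L _ (g n) hx3 h3 (by positivity) h1 h2
    have hP0 : (0 : ℝ) < Nat.nth Nat.Prime (f n) := by have := key_two (f n); linarith
    constructor
    · calc (f n : ℝ) ≤ Nat.nth Nat.Prime (f n) := by
            exact_mod_cast key_mono.le_apply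
        _ = Real.exp (Real.log (Nat.nth Nat.Prime (f n))) := (Real.exp_log hP0).symm
        _ ≤ _ := Real.exp_le_exp.2 h5
    · have h6 : Real.log 2 ≤ Real.log (Nat.nth Nat.Prime (f n)) :=
        Real.log_le_log (by norm_num) (key_two (f n))
      have h7 := Real.log_two_gt_d9
      have h8 : (g n : ℝ) * 0.69 ≤ 2 * L := by
        calc (g n : ℝ) * 0.69 ≤ g n * Real.log (Nat.nth Nat.Prime (f n)) := by
              gcongr; linarith
          _ ≤ _ := h1
      nlinarith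
  have hcard : S.card ≤ ((range (⌊Real.exp (D * y)⌋₊ + 1)) ×ˢ (range (⌊3 * L⌋₊ + 1))).card := by
    apply Finset.card_le_card_of_injOn (fun n => (f n, g n))
    · intro n hn
      obtain ⟨h1, h2⟩ := hbd n hn
      rw [mem_coe, mem_product, mem_range, mem_range]
      exact ⟨Nat.lt_succ_of_le (Nat.le_floor h1), Nat.lt_succ_of_le (Nat.le_floor h2)⟩
    · intro n hn m hm hnm
      simp only [Prod.mk.injEq] at hnm
      have h1 := hfg n hn
      have h2 := hfg m hm
      rw [hnm.1, hnm.2, ← h2] at h1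
      exact cnt_inj (hmem n hn).1 (hmem m hm).1 h1
  rw [card_product, card_range, card_range] at hcard
  have h1 : (S.card : ℝ) ≤ (Real.exp (D * y) + 1) * (3 * L + 1) := by
    calc (S.card : ℝ) ≤ (((⌊Real.exp (D * y)⌋₊ + 1) * (⌊3 * L⌋₊ + 1) : ℕ) : ℝ) := by exact_mod_cast hcard
      _ = ((⌊Real.exp (D * y)⌋₊ : ℝ) + 1) * ((⌊3 * L⌋₊ : ℝ) + 1) := by push_cast; ring
      _ ≤ _ := by
        gcongr
        · exact Nat.floor_le (Real.exp_pos _).le
        · exact Nat.floor_le (by positivity)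
  have hy1 : 5 ≤ y := by linarith
  have h2 : Real.exp (D * y) + 1 ≤ 2 * Real.exp (D * y) := by
    have : 1 ≤ Real.exp (D * y) := Real.one_le_exp (by positivity)
    linarith
  have h3 : L ≤ Real.exp y := by
    calc L = Real.exp (Real.log L) := (Real.exp_log hL0).symm
      _ ≤ _ := Real.exp_le_exp.2 hx1
  have h4 : (8 : ℝ) ≤ Real.exp 3 := by
    have h5 : (2 : ℝ) ≤ Real.exp 1 := by have := Real.add_one_le_exp (1 : ℝ); linarith
    calc (8 : ℝ) = 2 ^ 3 := by norm_num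
      _ ≤ (Real.exp 1) ^ 3 := pow_le_pow_left₀ (by norm_num) h5 3
      _ = Real.exp 3 := by rw [← Real.exp_nat_mul]; norm_num
  have h5 : L ^ ε = y * y := by
    rw [hy, ← Real.rpow_add hL0]
    congr 1
    ring
  calc (S.card : ℝ) ≤ (Real.exp (D * y) + 1) * (3 * L + 1) := h1
    _ ≤ (2 * Real.exp (D * y)) * (4 * Real.exp y) := by
        apply mul_le_mul h2 (by linarith) (by positivity) (by positivity)
    _ = 8 * (Real.exp (D * y) * Real.exp y) := by ring
    _ ≤ Real.exp 3 * (Real.exp (D * y) * Real.exp y) := by gcongr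
    _ = Real.exp (3 + (D * y + y)) := by rw [Real.exp_add, Real.exp_add]
    _ ≤ Real.exp (L ^ ε) := by
        apply Real.exp_le_exp.2
        rw [h5]
        nlinarith

end Pool.Agent.K9h59.BC
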