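import Pool.Agent.K9h59.BC.Stm
import Pool.Agent.H442R2.EHI.PntErr

set_option autoImplicit false

namespace Pool.Agent.K9h59.BC

open Finset

theorem gap_nth_le {k r : ℕ} (hr : r.Prime) (h : Nat.nth Nat.Prime k < r) :
    Nat.nth Nat.Prime (k + 1) ≤ r := by
  have h1 : Nat.nth Nat.Prime (Nat.count Nat.Prime r) = r := Nat.nth_count hr
  have hm := Nat.nth_strictMono Nat.infinite_setOfPred_prime
  have h2 : Nat.nth Nat.Prime k < Nat.nth Nat.Prime (Nat.count Nat.Prime r) := by rw [h1]; exact h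
  have h3 : Nat.nth Nat.Prime (k + 1) ≤ Nat.nth Nat.Prime (Nat.count Nat.Prime r) :=
    hm.monotone (Nat.succ_le_of_lt (hm.lt_iff_lt.1 h2))
  rw [h1] at h3
  exact h3

theorem gap_of (U : ℕ) (C : ℝ) (hC : 0 < C) (h : ∀ N : ℕ, 2 ≤ N →
    |Chebyshev.theta (N : ℝ) - N| ≤ C * (N / Real.log N ^ U)) (C2 : ℝ) (hC2 : 0 < C2)
    (h2 : ∀ y : ℕ, 1 ≤ y → Real.log y ^ U ≤ C2 * √(y : ℝ)) :
    ∃ C : ℝ, 0 < C ∧ ∀ k : ℕ, (Nat.nth Nat.Prime (k + 1) : ℝ) ≤
      Nat.nth Nat.Prime k * (1 + C / Real.log (Nat.nth Nat.Prime k) ^ U) := by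
  refine ⟨3 * C + C2, by positivity, fun k => ?_⟩
  have hpp : (Nat.nth Nat.Prime k).Prime := Nat.prime_nth_prime k
  have hpq : Nat.nth Nat.Prime k < Nat.nth Nat.Prime (k + 1) :=
    Nat.nth_strictMono Nat.infinite_setOfPred_prime (Nat.lt_succ_self k)
  obtain ⟨r, hr, hr1, hr2⟩ := Nat.exists_prime_lt_and_le_two_mul _ hpp.ne_zero
  have hq2 : Nat.nth Nat.Prime (k + 1) ≤ 2 * Nat.nth Nat.Prime k := (gap_nth_le hr hr1).trans hr2
  have hgap : ∀ r : ℕ, r.Prime → Nat.nth Nat.Prime k < r → Nat.nth Nat.Prime (k + 1) ≤ r :=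
    fun r => gap_nth_le
  generalize Nat.nth Nat.Prime k = p at hpp hpq hq2 hgap ⊢
  generalize Nat.nth Nat.Prime (k + 1) = q at hpq hq2 hgap ⊢
  obtain ⟨M, rfl⟩ : ∃ M, q = M + 1 := ⟨q - 1, by omega⟩
  have hpM : p ≤ M := by omega
  have hp2 : 2 ≤ p := hpp.two_le
  have hth : Chebyshev.theta (M : ℝ) = Chebyshev.theta (p : ℝ) := by
    rw [Chebyshev.theta, Chebyshev.theta, Nat.floor_natCast, Nat.floor_natCast]
    congr 1
    ext r
    simp only [mem_filter, mem_Ioc]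
    constructor
    · rintro ⟨⟨h1, h2⟩, h3⟩
      refine ⟨⟨h1, ?_⟩, h3⟩
      by_contra hc
      have := hgap r h3 (not_le.1 hc)
      omega
    · rintro ⟨⟨h1, h2⟩, h3⟩
      exact ⟨⟨h1, h2.trans hpM⟩, h3⟩
  have e1 := (abs_le.1 (h p hp2)).2
  have e2 := (abs_le.1 (h M (hp2.trans hpM))).1
  rw [hth] at e2
  have hp0 : (0 : ℝ) < p := by exact_mod_cast hpp.pos
  have hp1 : (1 : ℝ) ≤ p := by exact_mod_cast hpp.one_lt.le
  have hlp : 0 < Real.log p := Real.log_pos (by exact_mod_cast hpp.one_lt)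
  have hL : 0 < Real.log p ^ U := pow_pos hlp U
  have hpMR : (p : ℝ) ≤ M := by exact_mod_cast hpM
  have hM2 : (M : ℝ) + 1 ≤ 2 * p := by exact_mod_cast hq2
  have hll : Real.log p ^ U ≤ Real.log M ^ U :=
    pow_le_pow_left₀ hlp.le (Real.log_le_log hp0 hpMR) U
  have e3 : (M : ℝ) / Real.log M ^ U ≤ 2 * (p / Real.log p ^ U) := by
    calc (M : ℝ) / Real.log M ^ U ≤ (2 * p) / Real.log p ^ U := by
          apply div_le_div₀ (by positivity) (by linarith) hL hll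
      _ = 2 * (p / Real.log p ^ U) := by rw [mul_div_assoc]
  have e4 : 1 ≤ C2 * (p / Real.log p ^ U) := by
    rw [← mul_div_assoc, le_div_iff₀ hL, one_mul]
    refine (h2 p (by omega)).trans (mul_le_mul_of_nonneg_left ?_ hC2.le)
    rw [Real.sqrt_le_left hp0.le]
    nlinarith
  have e5 : C * ((M : ℝ) / Real.log M ^ U) ≤ C * (2 * (p / Real.log p ^ U)) :=
    mul_le_mul_of_nonneg_left e3 hC.le
  have e6 : (p : ℝ) * (1 + (3 * C + C2) / Real.log p ^ U) =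
      p + 3 * (C * (p / Real.log p ^ U)) + C2 * (p / Real.log p ^ U) := by
    field_simp
    ring
  rw [e6]
  push_cast
  linarith

theorem gap : S_GAP := by
  intro U
  obtain ⟨C, hC, h⟩ := Pool.Agent.H442R2.EHI.PntErrAux.thetaU U
  obtain ⟨C2, hC2, h2⟩ := Pool.Agent.H442R2.EHI.PntErrAux.log_pow_le U
  exact gap_of U C hC h C2 hC2 h2

end Pool.Agent.K9h59.BC
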