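import Pool.Agent.K9h59.BC.Stm
import Pool.Agent.H442R2.EHI.PntErr

set_option autoImplicit false

/-! Leaf GAP (helper96 for helper59): gaps between consecutive primes from the prime number theorem with error. -/

namespace Pool.Agent.K9h59.BC

open Finset

lemma gap96_theta {p q : ℕ} (hpq : p < q) (h : ∀ r, r.Prime → p < r → q ≤ r) :
    Chebyshev.theta ((q - 1 : ℕ) : ℝ) = Chebyshev.theta (p : ℝ) := by
  unfold Chebyshev.theta
  rw [Nat.floor_natCast, Nat.floor_natCast]
  refine Finset.sum_congr ?_ fun _ _ => rfl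
  ext r
  simp only [Finset.mem_filter, Finset.mem_Ioc]
  constructor
  · rintro ⟨⟨h1, h2⟩, h3⟩
    refine ⟨⟨h1, ?_⟩, h3⟩
    by_contra h4
    have := h r h3 (by omega)
    omega
  · rintro ⟨⟨h1, h2⟩, h3⟩
    exact ⟨⟨h1, by omega⟩, h3⟩

theorem gap96 : S_GAP := by
  intro U
  obtain ⟨C, hC, hθ⟩ := Pool.Agent.H442R2.EHI.PntErrAux.thetaU U
  have hfac : (0 : ℝ) < (U.factorial : ℝ) := by exact_mod_cast U.factorial_pos
  refine ⟨3 * C + U.factorial, by positivity, fun k => ?_⟩
  set p := Nat.nth Nat.Prime k with hp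
  set q := Nat.nth Nat.Prime (k + 1) with hq
  have hinf : (setOf Nat.Prime).Infinite := Nat.infinite_setOf_prime
  have hpp : p.Prime := Nat.prime_nth_prime k
  have hpq : p < q := (Nat.nth_lt_nth hinf).2 (Nat.lt_succ_self k)
  have hnext : ∀ r, r.Prime → p < r → q ≤ r := by
    intro r hr hlt
    have h1 : Nat.nth Nat.Prime (Nat.count Nat.Prime r) = r := Nat.nth_count hr
    rw [← h1] at hlt ⊢
    have h2 := (Nat.nth_lt_nth hinf).1 hlt
    exact (Nat.nth_le_nth hinf).2 h2
  have hp2 : 2 ≤ p := hpp.two_le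
  obtain ⟨r, hr, hr1, hr2⟩ := Nat.exists_prime_lt_and_le_two_mul p (by omega)
  have hq2 : q ≤ 2 * p := (hnext r hr hr1).trans hr2
  set y := q - 1 with hy
  have hpy : p ≤ y := by omega
  have hqy : q = y + 1 := by omega
  have hy2 : y ≤ 2 * p := by omega
  have hth := gap96_theta hpq hnext
  rw [← hy] at hth
  have h1 := hθ y (by omega)
  have h2 := hθ p hp2
  rw [hth] at h1
  have hp0 : (0 : ℝ) < p := by exact_mod_cast (by omega : 0 < p)
  have hpyr : (p : ℝ) ≤ y := by exact_mod_cast hpy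
  have hy2r : (y : ℝ) ≤ 2 * p := by exact_mod_cast hy2
  have hL : 0 < Real.log p := Real.log_pos (by exact_mod_cast (by omega : 1 < p))
  have hLy : Real.log p ≤ Real.log y := Real.log_le_log hp0 hpyr
  have hLU : 0 < Real.log p ^ U := by positivity
  have h3 : (y : ℝ) / Real.log y ^ U ≤ 2 * p / Real.log p ^ U :=
    div_le_div₀ (by positivity) hy2r hLU (pow_le_pow_left₀ hL.le hLy U)
  have h4 : (1 : ℝ) ≤ U.factorial * (p / Real.log p ^ U) := by
    have h5 := Real.pow_div_factorial_le_exp (Real.log p) hL.le U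
    rw [Real.exp_log hp0, div_le_iff₀ hfac] at h5
    rw [← mul_div_assoc, le_div_iff₀ hLU]
    linarith
  have h6 := (abs_le.1 h1).1
  have h7 := (abs_le.1 h2).2
  have h8 : C * ((y : ℝ) / Real.log y ^ U) ≤ C * (2 * p / Real.log p ^ U) :=
    mul_le_mul_of_nonneg_left h3 hC.le
  have h9 : (q : ℝ) = y + 1 := by rw [hqy]; push_cast; ring
  rw [h9]
  have e1 : C * (2 * (p : ℝ) / Real.log p ^ U) = 2 * C * (p / Real.log p ^ U) := by ring
  have e2 : (p : ℝ) * (1 + (3 * C + U.factorial) / Real.log p ^ U) =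
      p + 3 * C * (p / Real.log p ^ U) + U.factorial * (p / Real.log p ^ U) := by ring
  rw [e2]
  rw [e1] at h8
  linarith

end Pool.Agent.K9h59.BC
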