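import Pool.Agent.K9h59.BC.Stm

set_option autoImplicit false

namespace Pool.Agent.K9h59.BC

open Finset Filter Topology

theorem key_mono : StrictMono (Nat.nth Nat.Prime) := Nat.nth_strictMono Nat.infinite_setOf_prime

theorem key_two (i : ℕ) : (2 : ℝ) ≤ Nat.nth Nat.Prime i := by
  exact_mod_cast (Nat.prime_nth_prime i).two_le

theorem key_log_pos (i : ℕ) : 0 < Real.log (Nat.nth Nat.Prime i) :=
  Real.log_pos (by have := key_two i; linarith)

theorem key_tele (C : ℝ) (hC : 0 < C) (U : ℕ) (h : ∀ k : ℕ, (Nat.nth Nat.Prime (k + 1) : ℝ) ≤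
    Nat.nth Nat.Prime k * (1 + C / Real.log (Nat.nth Nat.Prime k) ^ U)) (i k : ℕ) :
    (Nat.nth Nat.Prime (i + k) : ℝ) ≤
      Nat.nth Nat.Prime i * (1 + C / Real.log (Nat.nth Nat.Prime i) ^ U) ^ k := by
  induction k with
  | zero => simp
  | succ k ih =>
    have h1 := h (i + k)
    have hi0 := key_log_pos i
    have hl : Real.log (Nat.nth Nat.Prime i) ≤ Real.log (Nat.nth Nat.Prime (i + k)) := by
      apply Real.log_le_log (by have := key_two i; linarith)
      exact_mod_cast key_mono.monotone (Nat.le_add_right i k)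
    have h2 : C / Real.log (Nat.nth Nat.Prime (i + k)) ^ U ≤ C / Real.log (Nat.nth Nat.Prime i) ^ U := by
      gcongr
    have h3 : 0 < C / Real.log (Nat.nth Nat.Prime (i + k)) ^ U := by
      have := key_log_pos (i + k)
      positivity
    calc (Nat.nth Nat.Prime (i + (k + 1)) : ℝ)
        ≤ Nat.nth Nat.Prime (i + k) * (1 + C / Real.log (Nat.nth Nat.Prime (i + k)) ^ U) := by
          simpa [add_assoc] using h1
      _ ≤ (Nat.nth Nat.Prime i * (1 + C / Real.log (Nat.nth Nat.Prime i) ^ U) ^ k) *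
          (1 + C / Real.log (Nat.nth Nat.Prime i) ^ U) := by
          gcongr
      _ = _ := by ring

theorem key_main (hS : S_SZ) (hG : S_GAP) (U : ℕ) : ∃ c : ℝ, 0 < c ∧ ∀ n : ℕ, 4 ≤ n → ∀ i r : ℕ,
    n.choose 2 = ∏ k ∈ range r, Nat.nth Nat.Prime (i + k) →
    c * Real.log (Nat.nth Nat.Prime i) ^ U ≤ (r : ℝ) ^ 2 := by
  obtain ⟨C, hC, h⟩ := hG U
  have hl32 : 0 < Real.log (3 / 2) := Real.log_pos (by norm_num)
  refine ⟨min (Real.log (3 / 2) / C) (1 / 2 ^ U), by positivity, fun n hn i r hp => ?_⟩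
  have hL := key_log_pos i
  set L := Real.log (Nat.nth Nat.Prime i) with hLd
  have hr1 : 1 ≤ r := by
    rcases Nat.eq_zero_or_pos r with h0 | h0
    · subst h0
      simp only [range_zero, prod_empty] at hp
      have : 4 ≤ n.choose 2 := by
        have h4 : (4 : ℕ).choose 2 ≤ n.choose 2 := Nat.choose_le_choose 2 hn
        have : (4 : ℕ).choose 2 = 6 := by decide
        omega
      omega
    · exact h0
  rcases lt_or_ge (Nat.nth Nat.Prime i) 5 with h5 | h5
  · have h6 : L ≤ 2 := by
      rw [hLd]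
      have h7 : (Nat.nth Nat.Prime i : ℝ) ≤ 4 := by exact_mod_cast (by omega : Nat.nth Nat.Prime i ≤ 4)
      have h8 : Real.log (Nat.nth Nat.Prime i) ≤ Real.log 4 :=
        Real.log_le_log (by have := key_two i; linarith) h7
      have h9 : Real.log 4 = 2 * Real.log 2 := by
        rw [show (4 : ℝ) = 2 ^ 2 by norm_num, Real.log_pow]; norm_num
      have := Real.log_two_lt_d9
      linarith
    have h10 : L ^ U ≤ 2 ^ U := pow_le_pow_left₀ hL.le h6 U
    have h11 : (1 : ℝ) ≤ (r : ℝ) ^ 2 := by
      have : (1 : ℝ) ≤ r := by exact_mod_cast hr1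
      nlinarith
    calc min (Real.log (3 / 2) / C) (1 / 2 ^ U) * L ^ U ≤ (1 / 2 ^ U) * 2 ^ U :=
          mul_le_mul (min_le_right _ _) h10 (by positivity) (by positivity)
      _ = 1 := by field_simp
      _ ≤ _ := h11
  · set F := (range r).image (fun k => Nat.nth Nat.Prime (i + k)) with hF
    have hinj : Set.InjOn (fun k => Nat.nth Nat.Prime (i + k)) (range r : Set ℕ) := by
      intro a _ b _ hab
      have := key_mono.injective hab
      omega
    have hcard : F.card = r := by
      rw [hF, card_image_of_injOn hinj, card_range]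
    have hprod : n.choose 2 = ∏ p ∈ F, p := by
      rw [hF, prod_image hinj, hp]
    have hFm : ∀ p ∈ F, Nat.nth Nat.Prime i ≤ p ∧ p ≤ Nat.nth Nat.Prime (i + (r - 1)) := by
      intro p hpF
      obtain ⟨k, hk, rfl⟩ := mem_image.1 hpF
      rw [mem_range] at hk
      exact ⟨key_mono.monotone (by omega), key_mono.monotone (by omega)⟩
    have hFp : ∀ p ∈ F, p.Prime := by
      intro p hpF
      obtain ⟨k, hk, rfl⟩ := mem_image.1 hpF
      exact Nat.prime_nth_prime _
    have h1 := hS n hn F hFp hprod _ _ h5 hFm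
    rw [hcard] at h1
    have hP0 : (0 : ℝ) < Nat.nth Nat.Prime i := by have := key_two i; linarith
    set η := C / L ^ U with hη
    have hη0 : 0 < η := by positivity
    have h2 : (Nat.nth Nat.Prime (i + (r - 1)) : ℝ) / Nat.nth Nat.Prime i ≤ Real.exp (η * r) := by
      rw [div_le_iff₀ hP0]
      have h3 := key_tele C hC U h i (r - 1)
      rw [← hLd, ← hη] at h3
      have h4 : (1 + η) ^ (r - 1) ≤ Real.exp (η * r) := by
        calc (1 + η) ^ (r - 1) ≤ (1 + η) ^ r :=
              pow_le_pow_right₀ (by linarith) (Nat.sub_le r 1)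
          _ ≤ (Real.exp η) ^ r := by
              apply pow_le_pow_left₀ (by linarith)
              have := Real.add_one_le_exp η
              linarith
          _ = Real.exp (η * r) := by
              rw [← Real.exp_nat_mul]; ring_nf
      calc (Nat.nth Nat.Prime (i + (r - 1)) : ℝ) ≤ Nat.nth Nat.Prime i * (1 + η) ^ (r - 1) := h3
        _ ≤ Nat.nth Nat.Prime i * Real.exp (η * r) := by gcongr
        _ = _ := by ring
    have h3 : (3 / 2 : ℝ) ≤ Real.exp (η * r ^ 2) := by
      calc (3 / 2 : ℝ) ≤ _ := h1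
        _ ≤ (Real.exp (η * r)) ^ r := pow_le_pow_left₀ (by positivity) h2 r
        _ = _ := by rw [← Real.exp_nat_mul]; ring_nf
    have h4 : Real.log (3 / 2) ≤ η * r ^ 2 := by
      rw [Real.log_le_iff_le_exp (by norm_num)]
      exact h3
    have h5 : Real.log (3 / 2) * L ^ U ≤ C * r ^ 2 := by
      have h6 : η * L ^ U = C := by rw [hη]; field_simp
      have := mul_le_mul_of_nonneg_right h4 (show (0 : ℝ) ≤ L ^ U by positivity)
      calc Real.log (3 / 2) * L ^ U ≤ η * r ^ 2 * L ^ U := this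
        _ = (η * L ^ U) * r ^ 2 := by ring
        _ = _ := by rw [h6]
    calc min (Real.log (3 / 2) / C) (1 / 2 ^ U) * L ^ U ≤ (Real.log (3 / 2) / C) * L ^ U := by
          gcongr; exact min_le_left _ _
      _ = (Real.log (3 / 2) * L ^ U) / C := by ring
      _ ≤ _ := by rw [div_le_iff₀ hC]; linarith

end Pool.Agent.K9h59.BC
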