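import Pool.Agent.K9h59.BC.Cnt
import Pool.Agent.H442R2.EHI.PntErr

set_option autoImplicit false

namespace Pool.Agent.K9h59.BC

open Finset Filter Topology

theorem qb_theta_lower : ∃ c : ℝ, 0 < c ∧ ∀ N : ℕ, 2 ≤ N → c * N ≤ Chebyshev.theta (N : ℝ) := by
  obtain ⟨C, hC, h⟩ := Pool.Agent.H442R2.EHI.PntErrAux.thetaU 1
  obtain ⟨N₀, hN₀⟩ := exists_nat_ge (Real.exp (2 * C))
  have hN0pos : (0 : ℝ) < N₀ := lt_of_lt_of_le (Real.exp_pos _) hN₀
  have hl2 : 0 < Real.log 2 := Real.log_pos (by norm_num)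
  refine ⟨min (1 / 2) (Real.log 2 / N₀), by positivity, fun N hN => ?_⟩
  have hN' : (2 : ℝ) ≤ N := by exact_mod_cast hN
  rcases le_or_gt N₀ N with h1 | h1
  · have h2 := h N hN
    have h3 : 2 * C ≤ Real.log N := by
      rw [Real.le_log_iff_exp_le (by linarith)]
      exact hN₀.trans (by exact_mod_cast h1)
    have h4 : C * (N / Real.log N ^ 1) ≤ N / 2 := by
      rw [pow_one, ← mul_div_assoc, div_le_iff₀ (by linarith)]
      nlinarith
    have h5 := (abs_le.1 h2).1
    calc min (1 / 2) (Real.log 2 / N₀) * (N : ℝ) ≤ 1 / 2 * N := by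
          gcongr; exact min_le_left _ _
      _ ≤ _ := by linarith
  · have h2 : Real.log 2 ≤ Chebyshev.theta (N : ℝ) := by
      have h3 : Chebyshev.theta 2 ≤ Chebyshev.theta (N : ℝ) := Chebyshev.theta_mono hN'
      have h4 : Real.log 2 ≤ Chebyshev.theta 2 := by
        rw [Chebyshev.theta_eq_log_primorial]
        have : primorial ⌊(2 : ℝ)⌋₊ = 2 := by
          have h5 : ⌊(2 : ℝ)⌋₊ = 2 := by norm_num
          rw [h5]; decide
        rw [this]; norm_num
      linarith
    have h3 : (N : ℝ) ≤ N₀ := by exact_mod_cast h1.le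
    calc min (1 / 2) (Real.log 2 / N₀) * (N : ℝ) ≤ Real.log 2 / N₀ * N₀ := by
          apply mul_le_mul (min_le_right _ _) h3 (by positivity) (by positivity)
      _ = Real.log 2 := by field_simp
      _ ≤ _ := h2

theorem qb_theta_block (i r : ℕ) (hr : 1 ≤ r) :
    Chebyshev.theta (Nat.nth Nat.Prime (i + (r - 1)) : ℝ) ≤ Chebyshev.theta (Nat.nth Nat.Prime i : ℝ) +
      ∑ k ∈ range r, Real.log (Nat.nth Nat.Prime (i + k)) := by
  classical
  unfold Chebyshev.theta
  rw [Nat.floor_natCast, Nat.floor_natCast]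
  set P := Nat.nth Nat.Prime i with hP
  set Q := Nat.nth Nat.Prime (i + (r - 1)) with hQ
  have hinj : Set.InjOn (fun k => Nat.nth Nat.Prime (i + k)) (range r : Set ℕ) := by
    intro a _ b _ hab
    have := key_mono.injective hab
    omega
  have h1 : ∑ k ∈ range r, Real.log (Nat.nth Nat.Prime (i + k)) =
      ∑ p ∈ (range r).image (fun k => Nat.nth Nat.Prime (i + k)), Real.log p := by
    rw [sum_image hinj]
  rw [h1]
  have hnn : ∀ p : ℕ, 0 ≤ Real.log (p : ℝ) := fun p => Real.log_natCast_nonneg p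
  calc ∑ p ∈ (Ioc 0 Q).filter Nat.Prime, Real.log (p : ℝ)
      ≤ ∑ p ∈ (Ioc 0 P).filter Nat.Prime ∪ (range r).image (fun k => Nat.nth Nat.Prime (i + k)),
          Real.log (p : ℝ) := by
        apply sum_le_sum_of_subset_of_nonneg
        · intro p hp
          rw [mem_filter, mem_Ioc] at hp
          rw [mem_union, mem_filter, mem_Ioc, mem_image]
          rcases le_or_gt p P with h2 | h2
          · exact Or.inl ⟨⟨hp.1.1, h2⟩, hp.2⟩
          · right
            have hc : Nat.nth Nat.Prime (Nat.count Nat.Prime p) = p := Nat.nth_count hp.2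
            have h3 : i < Nat.count Nat.Prime p := by
              apply key_mono.lt_iff_lt.1
              rw [hc]; exact h2
            have h4 : Nat.count Nat.Prime p ≤ i + (r - 1) := by
              apply key_mono.le_iff_le.1
              rw [hc]; exact hp.1.2
            refine ⟨Nat.count Nat.Prime p - i, ?_, ?_⟩
            · rw [mem_range]; omega
            · have : i + (Nat.count Nat.Prime p - i) = Nat.count Nat.Prime p := by omega
              rw [this, hc]
        · intro p _ _; exact hnn p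
    _ ≤ _ := by
        have h5 := sum_union_inter (s₁ := (Ioc 0 P).filter Nat.Prime)
          (s₂ := (range r).image (fun k => Nat.nth Nat.Prime (i + k))) (f := fun p : ℕ => Real.log (p : ℝ))
        have h6 : 0 ≤ ∑ p ∈ (Ioc 0 P).filter Nat.Prime ∩
            (range r).image (fun k => Nat.nth Nat.Prime (i + k)), Real.log (p : ℝ) :=
          sum_nonneg fun p _ => hnn p
        linarith

/-- the largest prime of the block is at most `exp (C (log n)^ε)` -/
theorem qb_main (hK : S_KEY) (ε : ℝ) (hε : 0 < ε) : ∃ C : ℝ, 0 < C ∧ ∀ n : ℕ, 4 ≤ n → ∀ i r : ℕ, 1 ≤ r →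
    n.choose 2 = ∏ k ∈ range r, Nat.nth Nat.Prime (i + k) →
    Real.log (Nat.nth Nat.Prime (i + (r - 1))) ≤ C * Real.log n ^ ε := by
  obtain ⟨U, hU⟩ := exists_nat_ge (4 / (2 * ε))
  obtain ⟨c, hc, hk⟩ := hK U
  obtain ⟨a, ha, hth⟩ := qb_theta_lower
  set D := max 1 (4 / c) with hD
  refine ⟨|Real.log (4 / a)| + 1 / ε + D, by positivity, fun n hn i r hr hp => ?_⟩
  have hn' : (4 : ℝ) ≤ n := by exact_mod_cast hn
  have hL1 : 1 ≤ Real.log n := by
    have h1 : Real.log 4 ≤ Real.log n := Real.log_le_log (by norm_num) hn'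
    have h2 : Real.log 4 = 2 * Real.log 2 := by
      rw [show (4 : ℝ) = 2 ^ 2 by norm_num, Real.log_pow]; norm_num
    have := Real.log_two_gt_d9
    linarith
  set L := Real.log n with hL
  have hL0 : 0 < L := by linarith
  have h1 := cnt_bd n hn n le_rfl i r hp
  have h2 := hk n hn i r hp
  have h3 := key_log_pos i
  have h5 := cnt_block c hc U (2 * ε) (by positivity) (by linarith) L _ r hL1 h3 (by positivity) h1 h2
  rw [show 2 * ε / 2 = ε by ring] at h5
  set P := Nat.nth Nat.Prime i with hP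
  set Q := Nat.nth Nat.Prime (i + (r - 1)) with hQ
  have hP2 : (2 : ℝ) ≤ P := key_two i
  have hQ2 : (2 : ℝ) ≤ Q := key_two _
  have h6 : ∑ k ∈ range r, Real.log (Nat.nth Nat.Prime (i + k)) ≤ 2 * L := by
    rw [← Real.log_prod (fun k _ => by have := key_two (i + k); linarith)]
    have h7 : (∏ k ∈ range r, (Nat.nth Nat.Prime (i + k) : ℝ)) = (n.choose 2 : ℝ) := by
      rw [hp]; push_cast; rfl
    rw [h7]
    have h8 : (n.choose 2 : ℝ) ≤ (n : ℝ) ^ 2 := by
      rw [Nat.cast_choose_two]; nlinarith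
    have h9 : (0 : ℝ) < n.choose 2 := by
      rw [Nat.cast_choose_two]
      have : (0 : ℝ) < (n : ℝ) * (n - 1) := by nlinarith
      linarith
    have h10 := Real.log_le_log h9 h8
    rw [Real.log_pow] at h10
    push_cast at h10
    linarith
  have h7 := qb_theta_block i r hr
  have h8 := hth Q (by exact_mod_cast hQ2)
  have h9 : Chebyshev.theta (P : ℝ) ≤ 2 * P := by
    have h10 := Chebyshev.theta_le_log4_mul_x (show (0 : ℝ) ≤ P by linarith)
    have h11 : Real.log 4 ≤ 2 := by
      have h2 : Real.log 4 = 2 * Real.log 2 := by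
        rw [show (4 : ℝ) = 2 ^ 2 by norm_num, Real.log_pow]; norm_num
      have := Real.log_two_lt_d9
      linarith
    nlinarith
  have h10 : (Q : ℝ) ≤ (4 / a) * (L * P) := by
    have h11 : a * Q ≤ 4 * (L * P) := by nlinarith
    rw [div_mul_eq_mul_div, le_div_iff₀ ha]
    linarith
  have h11 : Real.log Q ≤ Real.log (4 / a) + (Real.log L + Real.log P) := by
    have h12 := Real.log_le_log (by linarith) h10
    rwa [Real.log_mul (by positivity) (by positivity), Real.log_mul (by positivity) (by positivity)] at h12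
  have h12 : Real.log L ≤ 1 / ε * L ^ ε := by
    have := Real.log_le_rpow_div hL0.le hε
    calc Real.log L ≤ L ^ ε / ε := this
      _ = _ := by ring
  have h13 : 1 ≤ L ^ ε := Real.one_le_rpow hL1 hε.le
  have h14 : Real.log (4 / a) ≤ |Real.log (4 / a)| * L ^ ε := by
    calc Real.log (4 / a) ≤ |Real.log (4 / a)| := le_abs_self _
      _ = |Real.log (4 / a)| * 1 := by ring
      _ ≤ _ := by gcongr
  calc Real.log Q ≤ Real.log (4 / a) + (Real.log L + Real.log P) := h11
    _ ≤ |Real.log (4 / a)| * L ^ ε + (1 / ε * L ^ ε + D * L ^ ε) := by linarith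
    _ = _ := by ring

/-- the block has at least `c (log n)^(1-ε)` primes -/
theorem qb_count (hK : S_KEY) (ε : ℝ) (hε : 0 < ε) : ∃ c : ℝ, 0 < c ∧ ∀ n : ℕ, 4 ≤ n → ∀ i r : ℕ, 1 ≤ r →
    n.choose 2 = ∏ k ∈ range r, Nat.nth Nat.Prime (i + k) → c * Real.log n ^ (1 - ε) ≤ r := by
  obtain ⟨C, hC, h⟩ := qb_main hK ε hε
  refine ⟨1 / C, by positivity, fun n hn i r hr hp => ?_⟩
  have h1 := h n hn i r hr hp
  have hn' : (4 : ℝ) ≤ n := by exact_mod_cast hn
  have hL0 : 0 < Real.log n := Real.log_pos (by linarith)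
  set Q := Nat.nth Nat.Prime (i + (r - 1)) with hQ
  have hQ2 : (2 : ℝ) ≤ Q := key_two _
  have h2 : (n : ℝ) ≤ (Q : ℝ) ^ r := by
    have h3 : ∏ k ∈ range r, Nat.nth Nat.Prime (i + k) ≤ Q ^ r := by
      have := Finset.prod_le_pow_card (range r) (fun k => Nat.nth Nat.Prime (i + k)) Q
        (fun k hk => key_mono.monotone (by rw [mem_range] at hk; omega))
      rwa [card_range] at this
    have h4 : (n : ℝ) ≤ n.choose 2 := by
      rw [Nat.cast_choose_two]; nlinarith
    calc (n : ℝ) ≤ (n.choose 2 : ℝ) := h4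
      _ ≤ ((Q ^ r : ℕ) : ℝ) := by rw [hp]; exact_mod_cast h3
      _ = _ := by push_cast; rfl
  have h3 := Real.log_le_log (by linarith) h2
  rw [Real.log_pow] at h3
  have h4 : Real.log n ≤ r * (C * Real.log n ^ ε) := h3.trans (by gcongr)
  have h5 : Real.log n = Real.log n ^ (1 - ε) * Real.log n ^ ε := by
    rw [← Real.rpow_add hL0]; simp
  have h6 : 0 < Real.log n ^ ε := Real.rpow_pos_of_pos hL0 _
  rw [div_mul_eq_mul_div, one_mul, div_le_iff₀ hC]
  have h7 : Real.log n ^ (1 - ε) * Real.log n ^ ε ≤ (r * C) * Real.log n ^ ε := by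
    rw [← h5]; linarith
  exact le_of_mul_le_mul_right h7 h6

end Pool.Agent.K9h59.BC
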