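import Pool.Agent.K9h59.BC.Stm

set_option autoImplicit false

/-! Leaf SZ -/

namespace Pool.Agent.K9h59.BC

open Finset

theorem sz : S_SZ := by
  classical
  intro n hn F hF hc P Q hP hPQ
  have h1 : n * (n - 1) = 2 * ∏ p ∈ F, p := by
    rw [← hc, Nat.choose_two_right, Nat.mul_div_cancel' (Nat.even_mul_pred_self n).two_dvd]
  have hne : F.Nonempty := by
    rw [Finset.nonempty_iff_ne_empty]
    rintro rfl
    rw [Finset.prod_empty] at h1
    have h2 : 4 * 3 ≤ n * (n - 1) := Nat.mul_le_mul hn (by omega)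
    omega
  have hPQ1 : P ≤ Q := by
    obtain ⟨p, hp⟩ := hne
    exact (hPQ p hp).1.trans (hPQ p hp).2
  have hP0 : (0 : ℝ) < P := by
    have : 0 < P := by omega
    exact_mod_cast this
  have hPQ2 : (P : ℝ) ≤ Q := by exact_mod_cast hPQ1
  have hρ : (1 : ℝ) ≤ (Q : ℝ) / P := by
    rw [le_div_iff₀ hP0]
    linarith
  have hfin : ∀ k ≤ F.card, (3 / 2 : ℝ) * (P : ℝ) ^ k ≤ (Q : ℝ) ^ k →
      (3 / 2 : ℝ) ≤ ((Q : ℝ) / P) ^ F.card := by
    intro k hk h
    have h2 : (3 / 2 : ℝ) ≤ ((Q : ℝ) / P) ^ k := by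
      rw [div_pow, le_div_iff₀ (pow_pos hP0 k)]
      exact h
    exact h2.trans (pow_le_pow_right₀ hρ hk)
  have hlo : ∀ U ⊆ F, (P : ℝ) ^ U.card ≤ ((∏ p ∈ U, p : ℕ) : ℝ) := by
    intro U hU
    have h2 : P ^ U.card ≤ ∏ p ∈ U, p := by
      rw [← Finset.prod_const]
      exact Finset.prod_le_prod (fun _ _ => Nat.zero_le _) fun p hp => (hPQ p (hU hp)).1
    exact_mod_cast h2
  have hup : ∀ U ⊆ F, ((∏ p ∈ U, p : ℕ) : ℝ) ≤ (Q : ℝ) ^ U.card := by
    intro U hU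
    have h2 : ∏ p ∈ U, p ≤ Q ^ U.card := by
      rw [← Finset.prod_const]
      exact Finset.prod_le_prod (fun _ _ => Nat.zero_le _) fun p hp => (hPQ p (hU hp)).2
    exact_mod_cast h2
  obtain ⟨S, hS⟩ : ∃ S, S = F.filter (fun p => p ∣ n) := ⟨_, rfl⟩
  obtain ⟨T, hT⟩ : ∃ T, T = F.filter (fun p => ¬ p ∣ n) := ⟨_, rfl⟩
  have hSF : S ⊆ F := hS ▸ Finset.filter_subset _ _
  have hTF : T ⊆ F := hT ▸ Finset.filter_subset _ _
  have hST : (∏ p ∈ S, p) * ∏ p ∈ T, p = ∏ p ∈ F, p := by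
    rw [hS, hT]
    exact Finset.prod_filter_mul_prod_filter_not F (fun p => p ∣ n) (fun p => p)
  have hcS : S.card ≤ F.card := Finset.card_le_card hSF
  have hcT : T.card ≤ F.card := Finset.card_le_card hTF
  obtain ⟨a, ha⟩ : (∏ p ∈ S, p) ∣ n := by
    refine Finset.prod_primes_dvd n (fun p hp => (hF p (hSF hp)).prime) fun p hp => ?_
    rw [hS, Finset.mem_filter] at hp
    exact hp.2
  obtain ⟨b, hb⟩ : (∏ p ∈ T, p) ∣ n - 1 := by
    refine Finset.prod_primes_dvd (n - 1) (fun p hp => (hF p (hTF hp)).prime) fun p hp => ?_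
    have hp' := hp
    rw [hT, Finset.mem_filter] at hp'
    have h2 : p ∣ n * (n - 1) := by
      rw [h1]
      exact Dvd.dvd.mul_left (Finset.dvd_prod_of_mem _ (hTF hp)) 2
    exact ((hF p (hTF hp)).dvd_mul.1 h2).resolve_left hp'.2
  obtain ⟨X, hX⟩ : ∃ X, X = ∏ p ∈ S, p := ⟨_, rfl⟩
  obtain ⟨Y, hY⟩ : ∃ Y, Y = ∏ p ∈ T, p := ⟨_, rfl⟩
  have hlS := hlo S hSF
  have hlT := hlo T hTF
  have huS := hup S hSF
  have huT := hup T hTF
  rw [← hX] at ha hST hlS huS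
  rw [← hY] at hb hST hlT huT
  have hX0 : 0 < X := by
    rcases Nat.eq_zero_or_pos X with h | h
    · rw [h, zero_mul] at ha
      omega
    · exact h
  have hY0 : 0 < Y := by
    rcases Nat.eq_zero_or_pos Y with h | h
    · rw [h, zero_mul] at hb
      omega
    · exact h
  have hab : a * b = 2 := by
    have h2 : (X * Y) * (a * b) = (X * Y) * 2 := by
      calc (X * Y) * (a * b) = (X * a) * (Y * b) := by ring
        _ = n * (n - 1) := by rw [← ha, ← hb]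
        _ = (X * Y) * 2 := by rw [h1, ← hST]; ring
    exact Nat.eq_of_mul_eq_mul_left (Nat.mul_pos hX0 hY0) h2
  have hcases : (a = 2 ∧ b = 1) ∨ (a = 1 ∧ b = 2) := by
    have h2 : a ∣ 2 := ⟨b, hab.symm⟩
    rcases (Nat.dvd_prime Nat.prime_two).1 h2 with h3 | h3
    · right
      rw [h3, one_mul] at hab
      exact ⟨h3, hab⟩
    · left
      rw [h3] at hab
      exact ⟨h3, by omega⟩
  have hPr : (5 : ℝ) ≤ P := by exact_mod_cast hP
  -- `X ≤ n ≤ 2 X`, `Y ≤ n - 1 ≤ 2 Y`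
  have b1 : X ≤ n ∧ n ≤ 2 * X ∧ Y ≤ n - 1 ∧ n - 1 ≤ 2 * Y := by
    rcases hcases with ⟨rfl, rfl⟩ | ⟨rfl, rfl⟩ <;> omega
  obtain ⟨b2, b3, b4, b5⟩ := b1
  rcases lt_trichotomy S.card T.card with hst | hst | hst
  · -- `Y` is large
    apply hfin S.card hcS
    have h3 : Y ≤ 2 * X := by omega
    have h3' : (Y : ℝ) ≤ 2 * X := by exact_mod_cast h3
    have h4 : (P : ℝ) ^ (S.card + 1) ≤ (P : ℝ) ^ T.card :=
      pow_le_pow_right₀ (by linarith) (by omega)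
    rw [pow_succ] at h4
    have h5 : (0 : ℝ) < (P : ℝ) ^ S.card := pow_pos hP0 _
    nlinarith
  · apply hfin S.card hcS
    rcases hcases with ⟨rfl, rfl⟩ | ⟨rfl, rfl⟩
    · -- `n = 2 X`, `n - 1 = Y`
      have h3 : 3 * X ≤ 2 * Y := by omega
      have h3' : (3 : ℝ) * X ≤ 2 * Y := by exact_mod_cast h3
      rw [← hst] at huT
      linarith
    · have h3 : 2 * Y ≤ X := by omega
      have h3' : (2 : ℝ) * Y ≤ X := by exact_mod_cast h3
      rw [← hst] at hlT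
      have h5 : (0 : ℝ) < (P : ℝ) ^ S.card := pow_pos hP0 _
      linarith
  · apply hfin T.card hcT
    have h3 : 3 * X ≤ 8 * Y := by omega
    have h3' : (3 : ℝ) * X ≤ 8 * Y := by exact_mod_cast h3
    have h4 : (P : ℝ) ^ (T.card + 1) ≤ (P : ℝ) ^ S.card :=
      pow_le_pow_right₀ (by linarith) (by omega)
    rw [pow_succ] at h4
    have h5 : (0 : ℝ) < (P : ℝ) ^ T.card := pow_pos hP0 _
    nlinarith

end Pool.Agent.K9h59.BC
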