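import Pool.Agent.K9h59.BC.Stm

/-!
# Leaf SZ: the size lemma
-/

set_option autoImplicit false

namespace Pool.Agent.K9h59.BC

open Finset

theorem sz_core (P Q s t : ℕ) (x y : ℕ) (hP : 5 ≤ P) (hPQ : P ≤ Q)
    (hx : P ^ s ≤ x) (hx' : x ≤ Q ^ s) (hy : P ^ t ≤ y) (hy' : y ≤ Q ^ t)
    (h : 3 * x ≤ 2 * y ∨ 3 * y ≤ 2 * x) (h2 : 3 * x ≤ 8 * y) (h3 : 3 * y ≤ 8 * x) :
    (3 / 2 : ℝ) ≤ ((Q : ℝ) / P) ^ (s + t) := by
  have hP0 : (0 : ℝ) < P := by exact_mod_cast (by omega : 0 < P)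
  have hP5 : (5 : ℝ) ≤ P := by exact_mod_cast hP
  have hQP : (1 : ℝ) ≤ (Q : ℝ) / P := by
    rw [le_div_iff₀ hP0, one_mul]
    exact_mod_cast hPQ
  have hxr : (P : ℝ) ^ s ≤ x := by exact_mod_cast hx
  have hxr' : (x : ℝ) ≤ (Q : ℝ) ^ s := by exact_mod_cast hx'
  have hyr : (P : ℝ) ^ t ≤ y := by exact_mod_cast hy
  have hyr' : (y : ℝ) ≤ (Q : ℝ) ^ t := by exact_mod_cast hy'
  have h2r : 3 * (x : ℝ) ≤ 8 * y := by exact_mod_cast h2
  have h3r : 3 * (y : ℝ) ≤ 8 * x := by exact_mod_cast h3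
  have hcase : ∀ (a b : ℕ) (u v : ℝ), a < b → (P : ℝ) ^ b ≤ u → v ≤ (Q : ℝ) ^ a → 3 * u ≤ 8 * v →
      (3 / 2 : ℝ) ≤ ((Q : ℝ) / P) ^ a := by
    intro a b u v hab hu hv huv
    rw [div_pow, le_div_iff₀ (by positivity)]
    have h4 : (P : ℝ) ^ (a + 1) ≤ (P : ℝ) ^ b := pow_le_pow_right₀ (by linarith) hab
    have h5 : (P : ℝ) ^ (a + 1) = (P : ℝ) ^ a * P := pow_succ _ _
    have h6 : (P : ℝ) ^ a * 5 ≤ (P : ℝ) ^ a * P := mul_le_mul_of_nonneg_left hP5 (by positivity)
    have h7 : 0 < (P : ℝ) ^ a := by positivity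
    nlinarith
  rcases lt_trichotomy s t with hst | hst | hst
  · have h4 := hcase s t y x hst hyr hxr' h3r
    refine h4.trans (pow_le_pow_right₀ hQP (by omega))
  · subst hst
    have h4 : (3 / 2 : ℝ) ≤ ((Q : ℝ) / P) ^ s := by
      rw [div_pow, le_div_iff₀ (by positivity)]
      rcases h with h | h
      · have : 3 * (x : ℝ) ≤ 2 * y := by exact_mod_cast h
        linarith
      · have : 3 * (y : ℝ) ≤ 2 * x := by exact_mod_cast h
        linarith
    exact h4.trans (pow_le_pow_right₀ hQP (by omega))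
  · have h4 := hcase t s x y hst hxr hyr' h2r
    exact h4.trans (pow_le_pow_right₀ hQP (by omega))

theorem sz : S_SZ := by
  intro n hn F hF hprod P Q hP hPQ
  classical
  have htwo : n * (n - 1) = 2 * ∏ p ∈ F, p := by
    rw [← hprod, Nat.choose_two_right]
    have h1 : 2 ∣ n * (n - 1) := (Nat.even_mul_pred_self n).two_dvd
    omega
  have hcop : Nat.Coprime n (n - 1) := by
    have h1 : n - 1 + 1 = n := by omega
    rw [← h1]
    exact (Nat.coprime_self_add_left (m := n - 1) (n := 1)).2 (Nat.coprime_one_left _)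
  obtain ⟨m, hm⟩ : ∃ m, n = m + 1 := ⟨n - 1, by omega⟩
  set S := F.filter (fun p => p ∣ n) with hS
  set T := F.filter (fun p => ¬ p ∣ n) with hT
  have hST : (∏ p ∈ S, p) * ∏ p ∈ T, p = ∏ p ∈ F, p := prod_filter_mul_prod_filter_not F _ _
  have hSd : (∏ p ∈ S, p) ∣ n := by
    apply Finset.prod_primes_dvd
    · intro p hp
      exact (hF p (mem_filter.1 hp).1).prime
    · intro p hp
      exact (mem_filter.1 hp).2
  have hTd : (∏ p ∈ T, p) ∣ n - 1 := by
    apply Finset.prod_primes_dvd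
    · intro p hp
      exact (hF p (mem_filter.1 hp).1).prime
    · intro p hp
      have h1 := mem_filter.1 hp
      have h2 : p ∣ n * (n - 1) := by
        rw [htwo]
        exact (dvd_prod_of_mem (fun p => p) h1.1).mul_left 2
      exact ((hF p h1.1).dvd_mul.1 h2).resolve_left h1.2
  obtain ⟨a, ha⟩ := hSd
  obtain ⟨b, hb⟩ := hTd
  set x := ∏ p ∈ S, p with hx
  set y := ∏ p ∈ T, p with hy
  have hx0 : 0 < x := prod_pos fun p hp => (hF p (mem_filter.1 hp).1).pos
  have hy0 : 0 < y := prod_pos fun p hp => (hF p (mem_filter.1 hp).1).pos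
  have hab : a * b = 2 := by
    have h1 : (x * y) * (a * b) = (x * y) * 2 := by
      calc (x * y) * (a * b) = (x * a) * (y * b) := by ring
        _ = n * (n - 1) := by rw [← ha, ← hb]
        _ = 2 * (x * y) := by rw [htwo, hST]
        _ = (x * y) * 2 := by ring
    exact Nat.eq_of_mul_eq_mul_left (Nat.mul_pos hx0 hy0) h1
  have hx1 : P ^ S.card ≤ x := by
    rw [hx, ← Finset.prod_const]
    exact prod_le_prod' fun p hp => (hPQ p (mem_filter.1 hp).1).1
  have hx2 : x ≤ Q ^ S.card := by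
    rw [hx, ← Finset.prod_const]
    exact prod_le_prod' fun p hp => (hPQ p (mem_filter.1 hp).1).2
  have hy1 : P ^ T.card ≤ y := by
    rw [hy, ← Finset.prod_const]
    exact prod_le_prod' fun p hp => (hPQ p (mem_filter.1 hp).1).1
  have hy2 : y ≤ Q ^ T.card := by
    rw [hy, ← Finset.prod_const]
    exact prod_le_prod' fun p hp => (hPQ p (mem_filter.1 hp).1).2
  have hcard : F.card = S.card + T.card := (card_filter_add_card_filter_not (s := F) (fun p => p ∣ n)).symm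
  have hPQ' : P ≤ Q := by
    by_contra hlt
    have hFe : F = ∅ := by
      rw [eq_empty_iff_forall_notMem]
      intro p hp
      have := hPQ p hp
      omega
    rw [hFe, prod_empty, mul_one] at htwo
    have : 4 * 3 ≤ n * (n - 1) := Nat.mul_le_mul hn (by omega)
    omega
  have hdvd : a ∣ 2 := ⟨b, hab.symm⟩
  have ha2 : a = 1 ∨ a = 2 := (Nat.dvd_prime Nat.prime_two).1 hdvd
  rw [hcard]
  rcases ha2 with h1 | h1
  · have hb2 : b = 2 := by rw [h1, one_mul] at hab; exact hab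
    rw [h1, mul_one] at ha
    rw [hb2] at hb
    refine sz_core P Q _ _ x y hP hPQ' hx1 hx2 hy1 hy2 ?_ ?_ ?_ <;> omega
  · have hb1 : b = 1 := by rw [h1] at hab; omega
    rw [h1] at ha
    rw [hb1, mul_one] at hb
    refine sz_core P Q _ _ x y hP hPQ' hx1 hx2 hy1 hy2 ?_ ?_ ?_ <;> omega

end Pool.Agent.K9h59.BC
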