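import Pool.Agent.K9h59.BC.Stm

set_option autoImplicit false

/-! Leaf SZ (helper1) -/

namespace Pool.Agent.K9h59.BC

open Finset

theorem sz1 : S_SZ := by
  intro n hn F hF hprod P Q hP hPQ
  classical
  have hprod0 : 0 < ∏ p ∈ F, p := Finset.prod_pos fun p hp => (hF p hp).pos
  have h2 : n * (n - 1) = 2 * ∏ p ∈ F, p := by
    rw [← hprod, Nat.choose_two_right]
    exact (Nat.mul_div_cancel' (even_iff_two_dvd.1 (Nat.even_mul_pred_self n))).symm
  have hFne : F.Nonempty := by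
    rw [Finset.nonempty_iff_ne_empty]
    rintro rfl
    rw [Finset.prod_empty, mul_one] at h2
    have h3 : 4 * 3 ≤ n * (n - 1) := Nat.mul_le_mul hn (by omega)
    omega
  have hPQ' : P ≤ Q := by
    obtain ⟨p, hp⟩ := hFne
    exact (hPQ p hp).1.trans (hPQ p hp).2
  obtain ⟨S, hS⟩ : ∃ S : Finset ℕ, S = F.filter (fun p => p ∣ n) := ⟨_, rfl⟩
  obtain ⟨T, hT⟩ : ∃ T : Finset ℕ, T = F.filter (fun p => ¬ p ∣ n) := ⟨_, rfl⟩
  have hcard : S.card + T.card = F.card := by
    rw [hS, hT]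
    exact Finset.card_filter_add_card_filter_not _
  have hpr : (∏ p ∈ S, p) * ∏ p ∈ T, p = ∏ p ∈ F, p := by
    rw [hS, hT]
    exact Finset.prod_filter_mul_prod_filter_not F (fun p => p ∣ n) (fun p => p)
  have hSF : ∀ p ∈ S, p ∈ F ∧ p ∣ n := fun p hp => by
    rw [hS, Finset.mem_filter] at hp
    exact hp
  have hTF : ∀ p ∈ T, p ∈ F ∧ p ∣ n - 1 := fun p hp => by
    rw [hT, Finset.mem_filter] at hp
    refine ⟨hp.1, ?_⟩
    have h3 : p ∣ n * (n - 1) := by
      rw [h2]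
      exact (Finset.dvd_prod_of_mem (fun p => p) hp.1).mul_left 2
    exact ((hF p hp.1).dvd_mul.1 h3).resolve_left hp.2
  obtain ⟨a, ha⟩ : (∏ p ∈ S, p) ∣ n :=
    Finset.prod_primes_dvd n (fun p hp => (hF p (hSF p hp).1).prime) (fun p hp => (hSF p hp).2)
  obtain ⟨b, hb⟩ : (∏ p ∈ T, p) ∣ n - 1 :=
    Finset.prod_primes_dvd (n - 1) (fun p hp => (hF p (hTF p hp).1).prime)
      (fun p hp => (hTF p hp).2)
  obtain ⟨A, hA⟩ : ∃ A : ℕ, A = ∏ p ∈ S, p := ⟨_, rfl⟩
  obtain ⟨B, hB⟩ : ∃ B : ℕ, B = ∏ p ∈ T, p := ⟨_, rfl⟩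
  rw [← hA] at ha hpr
  rw [← hB] at hb hpr
  have hab : a * b = 2 := by
    have h3 : (A * B) * (a * b) = (A * B) * 2 := by
      calc (A * B) * (a * b) = (A * a) * (B * b) := by ring
        _ = n * (n - 1) := by rw [← ha, ← hb]
        _ = _ := by rw [h2, hpr]; ring
    exact Nat.eq_of_mul_eq_mul_left (by rw [hpr]; exact hprod0) h3
  have hP0 : (0 : ℝ) < P := by exact_mod_cast (show 0 < P by omega)
  have hx1 : 1 ≤ (Q : ℝ) / P := by
    rw [one_le_div hP0]
    exact_mod_cast hPQ'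
  have lA : (P : ℝ) ^ S.card ≤ A := by
    have h3 : P ^ S.card ≤ ∏ p ∈ S, p :=
      Finset.pow_card_le_prod S (fun p => p) P fun p hp => (hPQ p (hSF p hp).1).1
    rw [hA]
    exact_mod_cast h3
  have uA : (A : ℝ) ≤ (Q : ℝ) ^ S.card := by
    have h3 : ∏ p ∈ S, p ≤ Q ^ S.card :=
      Finset.prod_le_pow_card S (fun p => p) Q fun p hp => (hPQ p (hSF p hp).1).2
    rw [hA]
    exact_mod_cast h3
  have lB : (P : ℝ) ^ T.card ≤ B := by
    have h3 : P ^ T.card ≤ ∏ p ∈ T, p :=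
      Finset.pow_card_le_prod T (fun p => p) P fun p hp => (hPQ p (hTF p hp).1).1
    rw [hB]
    exact_mod_cast h3
  have uB : (B : ℝ) ≤ (Q : ℝ) ^ T.card := by
    have h3 : ∏ p ∈ T, p ≤ Q ^ T.card :=
      Finset.prod_le_pow_card T (fun p => p) Q fun p hp => (hPQ p (hTF p hp).1).2
    rw [hB]
    exact_mod_cast h3
  have hP5 : (5 : ℝ) ≤ P := by exact_mod_cast hP
  have key : (3 / 2 : ℝ) ≤ ((Q : ℝ) / P) ^ S.card ∨ (3 / 2 : ℝ) ≤ ((Q : ℝ) / P) ^ T.card := by
    have hab' : (a = 1 ∧ b = 2) ∨ (a = 2 ∧ b = 1) := by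
      have ha2 : a ∣ 2 := ⟨b, hab.symm⟩
      have h3 : a ≤ 2 := Nat.le_of_dvd (by norm_num) ha2
      interval_cases a <;> omega
    have hnAB : (a = 1 → (n = A ∧ n - 1 = 2 * B)) ∧ (a = 2 → (n = 2 * A ∧ n - 1 = B)) := by
      constructor
      · intro h1
        have hb2 : b = 2 := by omega
        subst h1; subst hb2
        omega
      · intro h1
        have hb2 : b = 1 := by omega
        subst h1; subst hb2
        omega
    rcases lt_trichotomy S.card T.card with hst | hst | hst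
    · -- `|T| ≥ |S| + 1`
      left
      have h3 : B ≤ 2 * A := by
        rcases hab' with ⟨h1, -⟩ | ⟨h1, -⟩
        · have := hnAB.1 h1; omega
        · have := hnAB.2 h1; omega
      have h3' : (B : ℝ) ≤ 2 * A := by exact_mod_cast h3
      have h4 : (P : ℝ) ^ (S.card + 1) ≤ (P : ℝ) ^ T.card := pow_le_pow_right₀ (by linarith) hst
      have h5 : (P : ℝ) * P ^ S.card ≤ 2 * (Q : ℝ) ^ S.card := by
        rw [pow_succ] at h4
        nlinarith
      rw [div_pow, le_div_iff₀ (by positivity)]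
      have h6 : (0 : ℝ) < (P : ℝ) ^ S.card := by positivity
      nlinarith
    · -- equal
      rcases hab' with ⟨h1, -⟩ | ⟨h1, -⟩
      · left
        have h3 : 2 * B ≤ A := by
          have := hnAB.1 h1; omega
        have h3' : 2 * (B : ℝ) ≤ A := by exact_mod_cast h3
        rw [← hst] at lB
        rw [div_pow, le_div_iff₀ (by positivity)]
        have h6 : (0 : ℝ) < (P : ℝ) ^ S.card := by positivity
        nlinarith
      · right
        have h3 : 3 * A ≤ 2 * B := by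
          have := hnAB.2 h1; omega
        have h3' : 3 * (A : ℝ) ≤ 2 * B := by exact_mod_cast h3
        rw [hst] at lA
        rw [div_pow, le_div_iff₀ (by positivity)]
        nlinarith
    · right
      have h3 : 3 * A ≤ 8 * B := by
        rcases hab' with ⟨h1, -⟩ | ⟨h1, -⟩
        · have := hnAB.1 h1; omega
        · have := hnAB.2 h1; omega
      have h3' : 3 * (A : ℝ) ≤ 8 * B := by exact_mod_cast h3
      have h4 : (P : ℝ) ^ (T.card + 1) ≤ (P : ℝ) ^ S.card := pow_le_pow_right₀ (by linarith) hst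
      rw [div_pow, le_div_iff₀ (by positivity)]
      have h6 : (0 : ℝ) < (P : ℝ) ^ T.card := by positivity
      have h5 : 3 * ((P : ℝ) * P ^ T.card) ≤ 8 * (Q : ℝ) ^ T.card := by
        rw [pow_succ] at h4
        nlinarith
      nlinarith
  rw [← hcard, pow_add]
  have e1 : 1 ≤ ((Q : ℝ) / P) ^ S.card := one_le_pow₀ hx1
  have e2 : 1 ≤ ((Q : ℝ) / P) ^ T.card := one_le_pow₀ hx1
  rcases key with h | h
  · nlinarith
  · nlinarith

end Pool.Agent.K9h59.BC
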