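import Pool.Agent.K9h59.BC.Stm

set_option autoImplicit false

/-! LEAF SZ (helper15) -/

namespace Pool.Agent.K9h59.BC

open Finset

namespace SZ15_

theorem prod_le (G : Finset ℕ) (P Q : ℕ) (h : ∀ p ∈ G, P ≤ p ∧ p ≤ Q) :
    (P : ℝ) ^ G.card ≤ ((∏ p ∈ G, p : ℕ) : ℝ) ∧ ((∏ p ∈ G, p : ℕ) : ℝ) ≤ (Q : ℝ) ^ G.card := by
  constructor
  · have h1 : P ^ G.card ≤ ∏ p ∈ G, p := Finset.pow_card_le_prod G _ P fun p hp => (h p hp).1
    exact_mod_cast h1
  · have h1 : ∏ p ∈ G, p ≤ Q ^ G.card := Finset.prod_le_pow_card G _ Q fun p hp => (h p hp).2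
    exact_mod_cast h1

end SZ15_

theorem sz15 : S_SZ := by
  intro n hn F hF hFn P Q hP hPQ
  classical
  set S := F.filter (fun p => p ∣ n) with hS
  set T := F.filter (fun p => ¬ p ∣ n) with hT
  have hcard : S.card + T.card = F.card := Finset.card_filter_add_card_filter_not _
  have hprod : (∏ p ∈ S, p) * ∏ p ∈ T, p = ∏ p ∈ F, p := Finset.prod_filter_mul_prod_filter_not F _ _
  have hmul : n * (n - 1) = 2 * ∏ p ∈ F, p := by
    rw [← hFn, Nat.choose_two_right]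
    have := Nat.even_mul_pred_self n
    rw [Nat.mul_div_cancel' this.two_dvd]
  have hSd : ∏ p ∈ S, p ∣ n := Finset.prod_primes_dvd n
    (fun p hp => (hF p (Finset.mem_filter.mp hp).1).prime) (fun p hp => (Finset.mem_filter.mp hp).2)
  have hTd : ∏ p ∈ T, p ∣ n - 1 := Finset.prod_primes_dvd (n - 1)
    (fun p hp => (hF p (Finset.mem_filter.mp hp).1).prime) (fun p hp => by
      obtain ⟨h1, h2⟩ := Finset.mem_filter.mp hp
      have h3 : p ∣ n * (n - 1) := by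
        rw [hmul]
        exact (Finset.dvd_prod_of_mem _ h1).mul_left 2
      exact ((hF p h1).dvd_mul.mp h3).resolve_left h2)
  obtain ⟨a, ha⟩ := hSd
  obtain ⟨b, hb⟩ := hTd
  set A := ∏ p ∈ S, p with hA
  set B := ∏ p ∈ T, p with hB
  have hA0 : 0 < A := Nat.pos_of_ne_zero (by rintro h; rw [h, zero_mul] at ha; omega)
  have hB0 : 0 < B := Nat.pos_of_ne_zero (by rintro h; rw [h, zero_mul] at hb; omega)
  have hab : a * b = 2 := by
    have h1 : (A * B) * (a * b) = (A * B) * 2 := by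
      calc (A * B) * (a * b) = (A * a) * (B * b) := by ring
        _ = n * (n - 1) := by rw [← ha, ← hb]
        _ = (A * B) * 2 := by rw [hmul, ← hprod]; ring
    exact Nat.eq_of_mul_eq_mul_left (Nat.mul_pos hA0 hB0) h1
  have hcase : (a = 2 ∧ b = 1) ∨ (a = 1 ∧ b = 2) := by
    have h1 : a ∣ 2 := ⟨b, hab.symm⟩
    have h2 := Nat.le_of_dvd (by norm_num) h1
    interval_cases a
    · omega
    · right; exact ⟨rfl, by omega⟩
    · left; exact ⟨rfl, by omega⟩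
  obtain ⟨hS1, hS2⟩ := SZ15_.prod_le S P Q fun p hp => hPQ p (Finset.mem_filter.mp hp).1
  obtain ⟨hT1, hT2⟩ := SZ15_.prod_le T P Q fun p hp => hPQ p (Finset.mem_filter.mp hp).1
  rw [← hA] at hS1 hS2
  rw [← hB] at hT1 hT2
  have hPR : (5 : ℝ) ≤ P := by exact_mod_cast hP
  have hP0 : (0 : ℝ) < P := by linarith
  have hFne : F.Nonempty := by
    rw [Finset.nonempty_iff_ne_empty]
    rintro rfl
    rw [Finset.prod_empty] at hmul
    have : 4 * 3 ≤ n * (n - 1) := Nat.mul_le_mul hn (by omega)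
    omega
  obtain ⟨p0, hp0⟩ := hFne
  have hPQ' : (P : ℝ) ≤ Q := by exact_mod_cast (hPQ p0 hp0).1.trans (hPQ p0 hp0).2
  set r : ℝ := (Q : ℝ) / P with hr
  have hr1 : 1 ≤ r := by rw [hr, le_div_iff₀ hP0, one_mul]; exact hPQ'
  have hQ : ∀ k : ℕ, (Q : ℝ) ^ k = r ^ k * (P : ℝ) ^ k := by
    intro k
    rw [hr, div_pow, div_mul_cancel₀]
    positivity
  rw [hQ] at hS2 hT2
  have hmono : ∀ k ≤ F.card, (3 / 2 : ℝ) ≤ r ^ k → (3 / 2 : ℝ) ≤ r ^ F.card := fun k hk h =>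
    h.trans (pow_le_pow_right₀ hr1 hk)
  have hPk : ∀ k : ℕ, 0 < (P : ℝ) ^ k := fun k => by positivity
  have hA0' : (0 : ℝ) < A := by exact_mod_cast hA0
  have hB0' : (0 : ℝ) < B := by exact_mod_cast hB0
  -- the relations
  have hrel : ((A : ℝ) ≤ 8 / 3 * B ∧ (B : ℝ) ≤ 2 * A) ∧ (3 / 2 * (A : ℝ) ≤ B ∨ 3 / 2 * (B : ℝ) ≤ A) := by
    rcases hcase with ⟨rfl, rfl⟩ | ⟨rfl, rfl⟩
    · have h1 : B + 1 = 2 * A := by omega
      have h2 : 2 ≤ A := by omega
      have h3 : (B : ℝ) + 1 = 2 * A := by exact_mod_cast h1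
      have h4 : (2 : ℝ) ≤ A := by exact_mod_cast h2
      exact ⟨⟨by linarith, by linarith⟩, Or.inl (by linarith)⟩
    · have h1 : 2 * B + 1 = A := by omega
      have h2 : 2 ≤ B := by omega
      have h3 : 2 * (B : ℝ) + 1 = A := by exact_mod_cast h1
      have h4 : (2 : ℝ) ≤ B := by exact_mod_cast h2
      exact ⟨⟨by linarith, by linarith⟩, Or.inr (by linarith)⟩
  obtain ⟨⟨hAB, hBA⟩, hor⟩ := hrel
  have hrk : ∀ k : ℕ, 0 < r ^ k := fun k => by positivity
  rcases lt_trichotomy S.card T.card with hst | hst | hst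
  · -- T larger
    apply hmono S.card (by omega)
    have h1 : (P : ℝ) ^ (S.card + 1) ≤ (P : ℝ) ^ T.card := pow_le_pow_right₀ (by linarith) hst
    have h2 : 5 * (P : ℝ) ^ S.card ≤ 2 * (r ^ S.card * (P : ℝ) ^ S.card) := by
      calc 5 * (P : ℝ) ^ S.card ≤ P * (P : ℝ) ^ S.card :=
            mul_le_mul_of_nonneg_right hPR (hPk _).le
        _ = (P : ℝ) ^ (S.card + 1) := by ring
        _ ≤ 2 * (r ^ S.card * (P : ℝ) ^ S.card) := by linarith
    have h3 : 5 ≤ 2 * r ^ S.card := by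
      have h4 : 5 * (P : ℝ) ^ S.card ≤ (2 * r ^ S.card) * (P : ℝ) ^ S.card := by linarith
      exact le_of_mul_le_mul_right h4 (hPk _)
    linarith
  · apply hmono S.card (by omega)
    rw [← hst] at hT1 hT2
    rcases hor with h | h
    · have h1 : 3 / 2 * (A : ℝ) ≤ r ^ S.card * A := by
        calc 3 / 2 * (A : ℝ) ≤ B := h
          _ ≤ r ^ S.card * (P : ℝ) ^ S.card := hT2
          _ ≤ r ^ S.card * A := mul_le_mul_of_nonneg_left hS1 (hrk _).le
      exact le_of_mul_le_mul_right h1 hA0'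
    · have h1 : 3 / 2 * (B : ℝ) ≤ r ^ S.card * B := by
        calc 3 / 2 * (B : ℝ) ≤ A := h
          _ ≤ r ^ S.card * (P : ℝ) ^ S.card := hS2
          _ ≤ r ^ S.card * B := mul_le_mul_of_nonneg_left hT1 (hrk _).le
      exact le_of_mul_le_mul_right h1 hB0'
  · -- S larger
    apply hmono T.card (by omega)
    have h1 : (P : ℝ) ^ (T.card + 1) ≤ (P : ℝ) ^ S.card := pow_le_pow_right₀ (by linarith) hst
    have h2 : 5 * (P : ℝ) ^ T.card ≤ 8 / 3 * (r ^ T.card * (P : ℝ) ^ T.card) := by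
      calc 5 * (P : ℝ) ^ T.card ≤ P * (P : ℝ) ^ T.card :=
            mul_le_mul_of_nonneg_right hPR (hPk _).le
        _ = (P : ℝ) ^ (T.card + 1) := by ring
        _ ≤ 8 / 3 * (r ^ T.card * (P : ℝ) ^ T.card) := by linarith
    have h3 : 5 ≤ 8 / 3 * r ^ T.card := by
      have h4 : 5 * (P : ℝ) ^ T.card ≤ (8 / 3 * r ^ T.card) * (P : ℝ) ^ T.card := by linarith
      exact le_of_mul_le_mul_right h4 (hPk _)
    linarith

end Pool.Agent.K9h59.BC
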