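import Pool.Agent.K9h59.BC.Stm

/-!
# Leaf SZ
-/

set_option autoImplicit false

namespace Pool.Agent.K9h59.BC

open Finset

theorem sz44 : S_SZ := by
  classical
  intro n hn F hF hprod P Q hP hPQ
  have hmul : n * (n - 1) = 2 * ∏ p ∈ F, p := by
    rw [← hprod, Nat.choose_two_right]
    have h2 : 2 ∣ n * (n - 1) := (Nat.even_mul_pred_self n).two_dvd
    omega
  have hpos : 0 < ∏ p ∈ F, p := Finset.prod_pos fun p hp => (hF p hp).pos
  have hne : F.Nonempty := by
    rw [Finset.nonempty_iff_ne_empty]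
    rintro rfl
    rw [Finset.prod_empty] at hmul
    have : 4 * 3 ≤ n * (n - 1) := Nat.mul_le_mul hn (by omega)
    omega
  obtain ⟨p₀, hp₀⟩ := hne
  have hPQ' : P ≤ Q := (hPQ p₀ hp₀).1.trans (hPQ p₀ hp₀).2
  set S := F.filter (fun p => p ∣ n) with hS
  set T := F.filter (fun p => ¬ p ∣ n) with hT
  have hST : (∏ p ∈ S, p) * (∏ p ∈ T, p) = ∏ p ∈ F, p :=
    Finset.prod_filter_mul_prod_filter_not F (fun p => p ∣ n) (fun p => p)
  have hcard : S.card + T.card = F.card := by
    rw [hS, hT]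
    exact Finset.card_filter_add_card_filter_not (fun p => p ∣ n)
  have hSd : (∏ p ∈ S, p) ∣ n :=
    Finset.prod_primes_dvd n (fun p hp => (hF p (Finset.mem_filter.1 hp).1).prime)
      fun p hp => (Finset.mem_filter.1 hp).2
  have hTd : (∏ p ∈ T, p) ∣ n - 1 := by
    refine Finset.prod_primes_dvd (n - 1)
      (fun p hp => (hF p (Finset.mem_filter.1 hp).1).prime) fun p hp => ?_
    have h1 := Finset.mem_filter.1 hp
    have h2 : p ∣ n * (n - 1) := by
      rw [hmul]
      exact Dvd.dvd.mul_left (Finset.dvd_prod_of_mem (fun p => p) h1.1) 2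
    exact ((hF p h1.1).dvd_mul.1 h2).resolve_left h1.2
  obtain ⟨a, ha⟩ := hSd
  obtain ⟨b, hb⟩ := hTd
  set x := ∏ p ∈ S, p with hx
  set y := ∏ p ∈ T, p with hy
  have hab : a * b = 2 := by
    have h1 : (a * b) * (∏ p ∈ F, p) = 2 * ∏ p ∈ F, p := by
      rw [← hmul, ← hST]
      calc a * b * (x * y) = (x * a) * (y * b) := by ring
        _ = n * (n - 1) := by rw [← ha, ← hb]
    exact Nat.eq_of_mul_eq_mul_right hpos h1
  have hxl : P ^ S.card ≤ x := by
    have := Finset.pow_card_le_prod S (fun p => p) P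
      fun p hp => (hPQ p (Finset.mem_filter.1 hp).1).1
    exact this
  have hxu : x ≤ Q ^ S.card := by
    have := Finset.prod_le_pow_card S (fun p => p) Q
      fun p hp => (hPQ p (Finset.mem_filter.1 hp).1).2
    exact this
  have hyl : P ^ T.card ≤ y := by
    have := Finset.pow_card_le_prod T (fun p => p) P
      fun p hp => (hPQ p (Finset.mem_filter.1 hp).1).1
    exact this
  have hyu : y ≤ Q ^ T.card := by
    have := Finset.prod_le_pow_card T (fun p => p) Q
      fun p hp => (hPQ p (Finset.mem_filter.1 hp).1).2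
    exact this
  have key : ∃ j, j ≤ F.card ∧ 3 * P ^ j ≤ 2 * Q ^ j := by
    have hab' : (a = 1 ∧ b = 2) ∨ (a = 2 ∧ b = 1) := by
      have h1 : a ∣ 2 := ⟨b, hab.symm⟩
      rcases (Nat.dvd_prime Nat.prime_two).1 h1 with h | h
      · left
        subst h
        omega
      · right
        subst h
        omega
    rcases lt_trichotomy S.card T.card with h | h | h
    · -- T is larger
      refine ⟨S.card, by omega, ?_⟩
      have h1 : P ^ (S.card + 1) ≤ P ^ T.card := Nat.pow_le_pow_right (by omega) h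
      rw [pow_succ] at h1
      have h2 : y ≤ 2 * x := by
        rcases hab' with ⟨ha', hb'⟩ | ⟨ha', hb'⟩ <;> subst ha' <;> subst hb' <;> omega
      have h3 : P ^ S.card * 5 ≤ P ^ S.card * P := Nat.mul_le_mul_left _ hP
      omega
    · refine ⟨S.card, by omega, ?_⟩
      rw [h] at hxl hxu ⊢
      rcases hab' with ⟨ha', hb'⟩ | ⟨ha', hb'⟩ <;> subst ha' <;> subst hb' <;> omega
    · refine ⟨T.card, by omega, ?_⟩
      have h1 : P ^ (T.card + 1) ≤ P ^ S.card := Nat.pow_le_pow_right (by omega) h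
      rw [pow_succ] at h1
      have h2 : 3 * x ≤ 8 * y := by
        rcases hab' with ⟨ha', hb'⟩ | ⟨ha', hb'⟩ <;> subst ha' <;> subst hb' <;> omega
      have h3 : P ^ T.card * 5 ≤ P ^ T.card * P := Nat.mul_le_mul_left _ hP
      omega
  obtain ⟨j, hj, hk⟩ := key
  have hP0 : (0 : ℝ) < P := by
    have : 0 < P := by omega
    exact_mod_cast this
  have h1 : (1 : ℝ) ≤ (Q : ℝ) / P := by
    rw [le_div_iff₀ hP0, one_mul]
    exact_mod_cast hPQ'
  have h2 : (3 / 2 : ℝ) ≤ ((Q : ℝ) / P) ^ j := by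
    rw [div_pow, le_div_iff₀ (pow_pos hP0 j)]
    have h3 : (3 : ℝ) * (P : ℝ) ^ j ≤ 2 * (Q : ℝ) ^ j := by exact_mod_cast hk
    linarith
  exact h2.trans (pow_le_pow_right₀ h1 hj)

end Pool.Agent.K9h59.BC
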