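import Pool.Agent.K9h59.BC.Stm

set_option autoImplicit false

namespace Pool.Agent.K9h59.BC

open Finset

theorem sz46_ratio {P Q : ℕ} (hP : 5 ≤ P) (hPQ : P ≤ Q) {m k : ℕ} (hmk : m ≤ k)
    (h : (3 / 2 : ℝ) * (P : ℝ) ^ m ≤ (Q : ℝ) ^ m) : (3 / 2 : ℝ) ≤ ((Q : ℝ) / P) ^ k := by
  have hP0 : (0 : ℝ) < P := by exact_mod_cast (by omega : 0 < P)
  have h1 : (1 : ℝ) ≤ (Q : ℝ) / P := by
    rw [le_div_iff₀ hP0, one_mul]
    exact_mod_cast hPQ
  have h2 : (3 / 2 : ℝ) ≤ ((Q : ℝ) / P) ^ m := by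
    rw [div_pow, le_div_iff₀ (by positivity)]
    exact h
  exact h2.trans (pow_le_pow_right₀ h1 hmk)

theorem sz46_bounds (F : Finset ℕ) {P Q : ℕ} (h : ∀ p ∈ F, P ≤ p ∧ p ≤ Q) :
    (P : ℝ) ^ F.card ≤ ((∏ p ∈ F, p : ℕ) : ℝ) ∧ ((∏ p ∈ F, p : ℕ) : ℝ) ≤ (Q : ℝ) ^ F.card := by
  push_cast
  rw [← Finset.prod_const, ← Finset.prod_const]
  constructor
  · exact Finset.prod_le_prod (fun _ _ => Nat.cast_nonneg P) fun p hp => by exact_mod_cast (h p hp).1
  · exact Finset.prod_le_prod (fun p _ => Nat.cast_nonneg p) fun p hp => by exact_mod_cast (h p hp).2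

theorem sz : S_SZ := by
  classical
  intro n hn F hF hprod P Q hP hPQ
  have hne : F.Nonempty := by
    by_contra hcon
    rw [not_nonempty_iff_eq_empty] at hcon
    rw [hcon, prod_empty, Nat.choose_two_right] at hprod
    have h1 : 4 * 3 ≤ n * (n - 1) := Nat.mul_le_mul hn (by omega)
    omega
  obtain ⟨p₀, hp₀⟩ := hne
  have hPQ' : P ≤ Q := (hPQ p₀ hp₀).1.trans (hPQ p₀ hp₀).2
  have hmain : n * (n - 1) = 2 * ∏ p ∈ F, p := by
    rw [← hprod, Nat.choose_two_right]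
    have h1 := (Nat.even_mul_pred_self n).two_dvd
    omega
  obtain ⟨S, hS⟩ : ∃ S, S = F.filter (fun p => p ∣ n) := ⟨_, rfl⟩
  obtain ⟨T, hT⟩ : ∃ T, T = F.filter (fun p => ¬ p ∣ n) := ⟨_, rfl⟩
  have hST : (∏ p ∈ S, p) * ∏ p ∈ T, p = ∏ p ∈ F, p := by
    rw [hS, hT]
    exact Finset.prod_filter_mul_prod_filter_not F _ _
  have hcard : S.card + T.card = F.card := by
    rw [hS, hT]
    exact Finset.card_filter_add_card_filter_not (s := F) (fun p => p ∣ n)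
  have hSn : (∏ p ∈ S, p) ∣ n := by
    refine Finset.prod_primes_dvd n (fun p hp => ?_) fun p hp => ?_
    · rw [hS, mem_filter] at hp
      exact (hF p hp.1).prime
    · rw [hS, mem_filter] at hp
      exact hp.2
  have hTn : (∏ p ∈ T, p) ∣ n - 1 := by
    refine Finset.prod_primes_dvd (n - 1) (fun p hp => ?_) fun p hp => ?_
    · rw [hT, mem_filter] at hp
      exact (hF p hp.1).prime
    · rw [hT, mem_filter] at hp
      have h1 : p ∣ n * (n - 1) := by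
        rw [hmain]
        exact dvd_mul_of_dvd_right (Finset.dvd_prod_of_mem _ hp.1) 2
      exact ((hF p hp.1).dvd_mul.1 h1).resolve_left hp.2
  have hSb := sz46_bounds S (P := P) (Q := Q) fun p hp => hPQ p (by rw [hS, mem_filter] at hp; exact hp.1)
  have hTb := sz46_bounds T (P := P) (Q := Q) fun p hp => hPQ p (by rw [hT, mem_filter] at hp; exact hp.1)
  obtain ⟨A, hA⟩ : ∃ A, A = ∏ p ∈ S, p := ⟨_, rfl⟩
  obtain ⟨B, hB⟩ : ∃ B, B = ∏ p ∈ T, p := ⟨_, rfl⟩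
  rw [← hA] at hSn hSb hST
  rw [← hB] at hTn hTb hST
  obtain ⟨a, ha⟩ := hSn
  obtain ⟨b, hb⟩ := hTn
  have hA0 : 0 < A := by
    rcases Nat.eq_zero_or_pos A with h | h
    · rw [h, zero_mul] at ha; omega
    · exact h
  have hB0 : 0 < B := by
    rcases Nat.eq_zero_or_pos B with h | h
    · rw [h, zero_mul] at hb; omega
    · exact h
  have hab : a * b = 2 := by
    have h1 : (A * B) * (a * b) = (A * B) * 2 := by
      calc (A * B) * (a * b) = (A * a) * (B * b) := by ring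
        _ = n * (n - 1) := by rw [← ha, ← hb]
        _ = 2 * (A * B) := by rw [hmain, hST]
        _ = (A * B) * 2 := by ring
    exact Nat.eq_of_mul_eq_mul_left (Nat.mul_pos hA0 hB0) h1
  have hn' : ((n - 1 : ℕ) : ℝ) = n - 1 := by
    rw [Nat.cast_sub (by omega)]; simp
  have hn4 : (4 : ℝ) ≤ n := by exact_mod_cast hn
  have haR : (n : ℝ) = A * a := by exact_mod_cast ha
  have hbR : (n : ℝ) - 1 = B * b := by
    rw [← hn']; exact_mod_cast hb
  have hA0R : (0 : ℝ) < A := by exact_mod_cast hA0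
  have hB0R : (0 : ℝ) < B := by exact_mod_cast hB0
  have hP5 : (5 : ℝ) ≤ P := by exact_mod_cast hP
  have hQ0 : (0 : ℝ) ≤ Q := Nat.cast_nonneg Q
  have hP1 : (1 : ℝ) ≤ P := by linarith
  have hcases : (a = 1 ∧ b = 2) ∨ (a = 2 ∧ b = 1) := by
    have h1 : a ∣ 2 := ⟨b, hab.symm⟩
    rcases (Nat.dvd_prime Nat.prime_two).1 h1 with h | h
    · left; subst h; omega
    · right; subst h; omega
  have ha12 : (1 : ℝ) ≤ a ∧ (a : ℝ) ≤ 2 := by
    rcases hcases with ⟨h, -⟩ | ⟨h, -⟩ <;> rw [h] <;> norm_num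
  have hb12 : (1 : ℝ) ≤ b ∧ (b : ℝ) ≤ 2 := by
    rcases hcases with ⟨-, h⟩ | ⟨-, h⟩ <;> rw [h] <;> norm_num
  rcases lt_trichotomy S.card T.card with h | h | h
  · -- `|S| < |T|`
    refine sz46_ratio hP hPQ' (m := S.card) (by omega) ?_
    have h1 : (P : ℝ) ^ (S.card + 1) ≤ (P : ℝ) ^ T.card := pow_le_pow_right₀ hP1 h
    rw [pow_succ] at h1
    have h2 : (B : ℝ) ≤ n := by nlinarith
    have h3 : (n : ℝ) ≤ 2 * A := by nlinarith
    have h4 : 0 < (P : ℝ) ^ S.card := by positivity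
    nlinarith [hSb.2, hTb.1]
  · -- `|S| = |T|`
    rw [← h] at hTb
    refine sz46_ratio hP hPQ' (m := S.card) (by omega) ?_
    rcases hcases with ⟨h1, h2⟩ | ⟨h1, h2⟩
    · rw [h1] at haR
      rw [h2] at hbR
      push_cast at haR hbR
      have : (3 / 2 : ℝ) * B ≤ A := by linarith
      linarith [hSb.2, hTb.1]
    · rw [h1] at haR
      rw [h2] at hbR
      push_cast at haR hbR
      have : (3 / 2 : ℝ) * A ≤ B := by linarith
      linarith [hSb.1, hTb.2]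
  · -- `|T| < |S|`
    refine sz46_ratio hP hPQ' (m := T.card) (by omega) ?_
    have h1 : (P : ℝ) ^ (T.card + 1) ≤ (P : ℝ) ^ S.card := pow_le_pow_right₀ hP1 h
    rw [pow_succ] at h1
    have h2 : (A : ℝ) ≤ n := by nlinarith
    have h3 : (n : ℝ) - 1 ≤ 2 * B := by nlinarith
    have h5 : (n : ℝ) ≤ 4 / 3 * (n - 1) := by linarith
    have h4 : 0 < (P : ℝ) ^ T.card := by positivity
    nlinarith [hSb.1, hTb.2]

end Pool.Agent.K9h59.BC
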