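import Pool.Agent.K9h59.BC.Stm

set_option autoImplicit false

/-! Leaf SZ of helper59 (second copy, helper57). -/

namespace Pool.Agent.K9h59.BC57

open Finset

lemma sz_lo (S : Finset ℕ) (P : ℕ) (h : ∀ p ∈ S, P ≤ p) : P ^ S.card ≤ ∏ p ∈ S, p := by
  calc P ^ S.card = ∏ _p ∈ S, P := by rw [Finset.prod_const]
    _ ≤ ∏ p ∈ S, p := Finset.prod_le_prod (fun _ _ => Nat.zero_le _) h

lemma sz_hi (S : Finset ℕ) (Q : ℕ) (h : ∀ p ∈ S, p ≤ Q) : ∏ p ∈ S, p ≤ Q ^ S.card := by
  calc ∏ p ∈ S, p ≤ ∏ _p ∈ S, Q := Finset.prod_le_prod (fun _ _ => Nat.zero_le _) h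
    _ = Q ^ S.card := by rw [Finset.prod_const]

theorem sz : Pool.Agent.K9h59.BC.S_SZ := by
  intro n hn F hF hch P Q hP hPQ
  classical
  set S := F.filter (fun p => p ∣ n) with hS
  set T := F.filter (fun p => ¬ p ∣ n) with hT
  have hcard : S.card + T.card = F.card := Finset.card_filter_add_card_filter_not (s := F) (fun p => p ∣ n)
  have hprod : (∏ p ∈ S, p) * ∏ p ∈ T, p = ∏ p ∈ F, p := Finset.prod_filter_mul_prod_filter_not F _ _
  have h2 : n * (n - 1) = 2 * ∏ p ∈ F, p := by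
    rw [← hch, Nat.choose_two_right]
    exact (Nat.mul_div_cancel' (Nat.even_mul_pred_self n).two_dvd).symm
  have hSn : (∏ p ∈ S, p) ∣ n := by
    refine Finset.prod_primes_dvd n (fun p hp => ?_) (fun p hp => ?_)
    · exact (hF p (Finset.mem_filter.1 hp).1).prime
    · exact (Finset.mem_filter.1 hp).2
  have hTn : (∏ p ∈ T, p) ∣ n - 1 := by
    refine Finset.prod_primes_dvd (n - 1) (fun p hp => ?_) (fun p hp => ?_)
    · exact (hF p (Finset.mem_filter.1 hp).1).prime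
    · have h3 : p ∣ n * (n - 1) := by
        rw [h2]
        exact Dvd.dvd.mul_left (Finset.dvd_prod_of_mem (fun p => p) (Finset.mem_filter.1 hp).1) 2
      rcases ((hF p (Finset.mem_filter.1 hp).1).dvd_mul).1 h3 with h4 | h4
      · exact absurd h4 (Finset.mem_filter.1 hp).2
      · exact h4
  have hX0 : 0 < ∏ p ∈ S, p := Finset.prod_pos fun p hp => (hF p (Finset.mem_filter.1 hp).1).pos
  have hY0 : 0 < ∏ p ∈ T, p := Finset.prod_pos fun p hp => (hF p (Finset.mem_filter.1 hp).1).pos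
  have hXlo := sz_lo S P (fun p hp => (hPQ p (Finset.mem_filter.1 hp).1).1)
  have hXhi := sz_hi S Q (fun p hp => (hPQ p (Finset.mem_filter.1 hp).1).2)
  have hYlo := sz_lo T P (fun p hp => (hPQ p (Finset.mem_filter.1 hp).1).1)
  have hYhi := sz_hi T Q (fun p hp => (hPQ p (Finset.mem_filter.1 hp).1).2)
  obtain ⟨a, ha⟩ := hSn
  obtain ⟨b, hb⟩ := hTn
  generalize hXd : ∏ p ∈ S, p = X at *
  generalize hYd : ∏ p ∈ T, p = Y at *
  have hab : a * b = 2 := by
    have h5 : (X * Y) * (a * b) = (X * Y) * 2 := by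
      rw [← hprod] at h2
      calc (X * Y) * (a * b) = (X * a) * (Y * b) := by ring
        _ = n * (n - 1) := by rw [← ha, ← hb]
        _ = (X * Y) * 2 := by rw [h2]; ring
    exact Nat.eq_of_mul_eq_mul_left (Nat.mul_pos hX0 hY0) h5
  have hFne : F.Nonempty := by
    rw [Finset.nonempty_iff_ne_empty]
    intro h0
    rw [h0, Finset.prod_empty] at h2
    have h6 : 4 * 3 ≤ n * (n - 1) := Nat.mul_le_mul hn (by omega)
    omega
  obtain ⟨p0, hp0⟩ := hFne
  have hPQ' : P ≤ Q := (hPQ p0 hp0).1.trans (hPQ p0 hp0).2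
  have hP0 : (0 : ℝ) < P := by
    have : 0 < P := by omega
    exact_mod_cast this
  have hr1 : (1 : ℝ) ≤ (Q : ℝ) / P := by
    rw [le_div_iff₀ hP0, one_mul]
    exact_mod_cast hPQ'
  have key : ∀ (k : ℕ) (c : ℝ), 3 / 2 ≤ c → k ≤ F.card → c * (P : ℝ) ^ k ≤ (Q : ℝ) ^ k →
      (3 / 2 : ℝ) ≤ ((Q : ℝ) / P) ^ F.card := by
    intro k c hc hk h
    refine le_trans ?_ (pow_le_pow_right₀ hr1 hk)
    rw [div_pow, le_div_iff₀ (pow_pos hP0 k)]
    exact le_trans (mul_le_mul_of_nonneg_right hc (pow_nonneg hP0.le k)) h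
  have hP5 : (5 : ℝ) ≤ P := by exact_mod_cast hP
  have hn4 : (4 : ℝ) ≤ n := by exact_mod_cast hn
  have hXlo' : (P : ℝ) ^ S.card ≤ X := by exact_mod_cast hXlo
  have hXhi' : (X : ℝ) ≤ (Q : ℝ) ^ S.card := by exact_mod_cast hXhi
  have hYlo' : (P : ℝ) ^ T.card ≤ Y := by exact_mod_cast hYlo
  have hYhi' : (Y : ℝ) ≤ (Q : ℝ) ^ T.card := by exact_mod_cast hYhi
  have hn1 : ((n - 1 : ℕ) : ℝ) = (n : ℝ) - 1 := by
    rw [Nat.cast_sub (by omega), Nat.cast_one]
  have ha' : (n : ℝ) = X * a := by exact_mod_cast ha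
  have hb' : (n : ℝ) - 1 = Y * b := by rw [← hn1]; exact_mod_cast hb
  have hX0' : (0 : ℝ) < X := by exact_mod_cast hX0
  have hY0' : (0 : ℝ) < Y := by exact_mod_cast hY0
  have hcases : (a = 1 ∧ b = 2) ∨ (a = 2 ∧ b = 1) := by
    have ha2 : a ≤ 2 := by
      rcases Nat.eq_zero_or_pos b with h | h
      · rw [h, mul_zero] at hab; omega
      · nlinarith
    interval_cases a
    · omega
    · left; omega
    · right; omega
  rcases lt_trichotomy S.card T.card with hlt | heq | hgt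
  · -- |T| ≥ |S| + 1
    have h7 : (P : ℝ) ^ (S.card + 1) ≤ (P : ℝ) ^ T.card := pow_le_pow_right₀ (by linarith) hlt
    have h8 : (Y : ℝ) ≤ 2 * X := by
      rcases hcases with ⟨h, h'⟩ | ⟨h, h'⟩ <;> rw [h] at ha' <;> rw [h'] at hb' <;> push_cast at ha' hb' <;>
        linarith
    refine key S.card (P / 2) (by linarith) (by omega) ?_
    have h9 : (P : ℝ) ^ (S.card + 1) = P * P ^ S.card := by ring
    nlinarith
  · rcases hcases with ⟨h, h'⟩ | ⟨h, h'⟩
    · rw [h] at ha'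
      rw [h'] at hb'
      push_cast at ha' hb'
      refine key S.card (3 / 2) le_rfl (by omega) ?_
      rw [← heq] at hYlo'
      linarith
    · rw [h] at ha'
      rw [h'] at hb'
      push_cast at ha' hb'
      refine key S.card (3 / 2) le_rfl (by omega) ?_
      rw [← heq] at hYhi'
      linarith
  · have h7 : (P : ℝ) ^ (T.card + 1) ≤ (P : ℝ) ^ S.card := pow_le_pow_right₀ (by linarith) hgt
    have h8 : (X : ℝ) ≤ 8 / 3 * Y := by
      rcases hcases with ⟨h, h'⟩ | ⟨h, h'⟩ <;> rw [h] at ha' <;> rw [h'] at hb' <;> push_cast at ha' hb' <;>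
        linarith
    refine key T.card (3 * P / 8) (by linarith) (by omega) ?_
    have h9 : (P : ℝ) ^ (T.card + 1) = P * P ^ T.card := by ring
    nlinarith

end Pool.Agent.K9h59.BC57
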