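import Pool.Agent.K9h59.BC.Stm

set_option autoImplicit false

namespace Pool.Agent.K9h59.BC

open Finset

theorem sz68 : S_SZ := by
  intro n hn F hF hprod P Q hP hPQ
  classical
  have hP0 : (0 : ℝ) < P := by exact_mod_cast (by omega : 0 < P)
  -- F is nonempty
  have hch : 6 ≤ n.choose 2 := by
    have h1 : Nat.choose 4 2 ≤ n.choose 2 := Nat.choose_le_choose 2 hn
    exact h1
  have hFne : F.Nonempty := by
    rw [nonempty_iff_ne_empty]
    rintro rfl
    rw [prod_empty] at hprod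
    omega
  obtain ⟨p0, hp0⟩ := hFne
  have hPQ' : P ≤ Q := (hPQ p0 hp0).1.trans (hPQ p0 hp0).2
  set x : ℝ := (Q : ℝ) / P with hx
  have hx1 : 1 ≤ x := by
    rw [hx, one_le_div hP0]
    exact_mod_cast hPQ'
  have hQx : (Q : ℝ) = x * P := by rw [hx]; field_simp
  -- `n (n-1) = 2 ∏ F`
  have h2 : n * (n - 1) = 2 * ∏ p ∈ F, p := by
    rw [← hprod, Nat.choose_two_right, Nat.mul_div_cancel' (Nat.even_mul_pred_self n).two_dvd]
  set S := F.filter fun p => p ∣ n with hS
  set T := F.filter fun p => ¬ p ∣ n with hT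
  have hST : (∏ p ∈ S, p) * ∏ p ∈ T, p = ∏ p ∈ F, p := prod_filter_mul_prod_filter_not F _ _
  have hcard : S.card + T.card = F.card := card_filter_add_card_filter_not _
  have hSn : (∏ p ∈ S, p) ∣ n := by
    refine prod_primes_dvd n (fun p hp => (hF p (mem_filter.1 hp).1).prime) fun p hp => (mem_filter.1 hp).2
  have hTn : (∏ p ∈ T, p) ∣ n - 1 := by
    refine prod_primes_dvd (n - 1) (fun p hp => (hF p (mem_filter.1 hp).1).prime) fun p hp => ?_
    have hp' := mem_filter.1 hp
    have h3 : p ∣ n * (n - 1) := by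
      rw [h2]
      exact (dvd_prod_of_mem _ hp'.1).mul_left 2
    exact ((hF p hp'.1).dvd_mul.1 h3).resolve_left hp'.2
  obtain ⟨a, ha⟩ := hSn
  obtain ⟨b, hb⟩ := hTn
  have hPF : 0 < ∏ p ∈ F, p := prod_pos fun p hp => (hF p hp).pos
  have hab : a * b = 2 := by
    have h3 : (∏ p ∈ F, p) * (a * b) = (∏ p ∈ F, p) * 2 := by
      calc (∏ p ∈ F, p) * (a * b) = ((∏ p ∈ S, p) * a) * ((∏ p ∈ T, p) * b) := by rw [← hST]; ring
        _ = n * (n - 1) := by rw [← ha, ← hb]
        _ = (∏ p ∈ F, p) * 2 := by rw [h2]; ring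
    exact Nat.eq_of_mul_eq_mul_left hPF h3
  have hcases : (a = 2 ∧ b = 1) ∨ (a = 1 ∧ b = 2) := by
    have h3 : a ∣ 2 := ⟨b, hab.symm⟩
    rcases (Nat.dvd_prime Nat.prime_two).1 h3 with h | h
    · right; subst h; exact ⟨rfl, by omega⟩
    · left; subst h; exact ⟨rfl, by omega⟩
  -- bounds of products
  have lo : ∀ A ⊆ F, (P : ℝ) ^ A.card ≤ ((∏ p ∈ A, p : ℕ) : ℝ) := by
    intro A hA
    rw [← prod_const]
    push_cast
    exact prod_le_prod (fun _ _ => hP0.le) fun p hp => by exact_mod_cast (hPQ p (hA hp)).1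
  have up : ∀ A ⊆ F, ((∏ p ∈ A, p : ℕ) : ℝ) ≤ (Q : ℝ) ^ A.card := by
    intro A hA
    rw [← prod_const]
    push_cast
    exact prod_le_prod (fun _ _ => Nat.cast_nonneg _) fun p hp => by exact_mod_cast (hPQ p (hA hp)).2
  have hSF : S ⊆ F := filter_subset _ _
  have hTF : T ⊆ F := filter_subset _ _
  set s : ℝ := ((∏ p ∈ S, p : ℕ) : ℝ) with hs
  set t : ℝ := ((∏ p ∈ T, p : ℕ) : ℝ) with ht
  have hs0 : 0 < s := lt_of_lt_of_le (by positivity) (lo S hSF)
  have ht0 : 0 < t := lt_of_lt_of_le (by positivity) (lo T hTF)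
  -- `s ≤ (8/3) t`, `t ≤ 2 s`, and one of `t ≥ (3/2) s`, `s ≥ 2 t`
  have hnR : (4 : ℝ) ≤ n := by exact_mod_cast hn
  have ha' : (n : ℝ) = s * a := by rw [hs]; exact_mod_cast ha
  have hb' : (n : ℝ) - 1 = t * b := by
    rw [ht]
    have : ((n - 1 : ℕ) : ℝ) = (n : ℝ) - 1 := by rw [Nat.cast_sub (by omega)]; simp
    rw [← this]
    exact_mod_cast hb
  have hrel : (3 / 2 * s ≤ t ∧ t ≤ 2 * s) ∨ (2 * t ≤ s ∧ s ≤ 8 / 3 * t) := by
    rcases hcases with ⟨h3, h4⟩ | ⟨h3, h4⟩
    · left
      rw [h3] at ha'; rw [h4] at hb'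
      push_cast at ha' hb'
      constructor <;> linarith
    · right
      rw [h3] at ha'; rw [h4] at hb'
      push_cast at ha' hb'
      constructor <;> linarith
  have hxpow : ∀ m : ℕ, m ≤ F.card → ∀ c : ℝ, c ≤ x ^ m → c ≤ x ^ F.card := fun m hm c hc =>
    hc.trans (pow_le_pow_right₀ hx1 hm)
  have hQpow : ∀ m : ℕ, (Q : ℝ) ^ m = x ^ m * (P : ℝ) ^ m := fun m => by rw [hQx, mul_pow]
  have hP5 : (5 : ℝ) ≤ P := by exact_mod_cast hP
  rcases lt_trichotomy S.card T.card with hlt | heq | hgt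
  · -- `P^(|S|+1) ≤ t ≤ 2 s ≤ 2 Q^|S|`
    refine hxpow S.card (by omega) _ ?_
    have h3 : (P : ℝ) ^ (S.card + 1) ≤ (P : ℝ) ^ T.card := pow_le_pow_right₀ (by linarith) hlt
    have h4 : t ≤ 8 / 3 * s := by
      rcases hrel with h | h
      · linarith
      · linarith
    have h5 := (h3.trans (lo T hTF)).trans (h4.trans (mul_le_mul_of_nonneg_left (up S hSF) (by norm_num)))
    rw [hQpow, pow_succ] at h5
    have h6 : 0 < (P : ℝ) ^ S.card := by positivity
    have h7 : (P : ℝ) ≤ 8 / 3 * x ^ S.card := by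
      by_contra hcon
      push Not at hcon
      have := mul_lt_mul_of_pos_left hcon h6
      linarith
    linarith
  · -- equal
    refine hxpow S.card (by omega) _ ?_
    have h6 : 0 < (P : ℝ) ^ S.card := by positivity
    rcases hrel with h | h
    · have h3 := lo S hSF
      have h4 := up T hTF
      rw [← heq, hQpow] at h4
      by_contra hcon
      push Not at hcon
      have := mul_lt_mul_of_pos_right hcon h6
      linarith [h.1]
    · have h3 := lo T hTF
      have h4 := up S hSF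
      rw [← heq] at h3
      rw [hQpow] at h4
      by_contra hcon
      push Not at hcon
      have := mul_lt_mul_of_pos_right hcon h6
      linarith [h.1]
  · refine hxpow T.card (by omega) _ ?_
    have h3 : (P : ℝ) ^ (T.card + 1) ≤ (P : ℝ) ^ S.card := pow_le_pow_right₀ (by linarith) hgt
    have h4 : s ≤ 8 / 3 * t := by
      rcases hrel with h | h
      · linarith
      · linarith
    have h5 := (h3.trans (lo S hSF)).trans (h4.trans (mul_le_mul_of_nonneg_left (up T hTF) (by norm_num)))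
    rw [hQpow, pow_succ] at h5
    have h6 : 0 < (P : ℝ) ^ T.card := by positivity
    have h7 : (P : ℝ) ≤ 8 / 3 * x ^ T.card := by
      by_contra hcon
      push Not at hcon
      have := mul_lt_mul_of_pos_left hcon h6
      linarith
    linarith

end Pool.Agent.K9h59.BC
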