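import Pool.Agent.K9h59.BC.Stm

set_option autoImplicit false

namespace Pool.Agent.K9h59.BC.Sz71

open Finset

lemma core {P Q u v : ℝ} {e f : ℕ} (hP : 5 ≤ P) (hPQ : P ≤ Q) (h1 : 3 / 2 * v ≤ u)
    (h2 : u ≤ 3 * v) (h3 : u ≤ Q ^ e) (h4 : P ^ e ≤ u) (h5 : v ≤ Q ^ f) (h6 : P ^ f ≤ v) :
    3 / 2 ≤ (Q / P) ^ (e + f) := by
  have hP0 : 0 < P := by linarith
  have hr : 1 ≤ Q / P := (one_le_div hP0).2 hPQ
  rcases le_or_gt e f with h | h
  · have h7 : P ^ e ≤ P ^ f := pow_le_pow_right₀ (by linarith) h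
    have h8 : 3 / 2 ≤ (Q / P) ^ e := by
      rw [div_pow, le_div_iff₀ (pow_pos hP0 e)]
      linarith
    exact h8.trans (pow_le_pow_right₀ hr (Nat.le_add_right e f))
  · have h7 : P ^ (f + 1) ≤ P ^ e := pow_le_pow_right₀ (by linarith) h
    rw [pow_succ] at h7
    have h9 := pow_pos hP0 f
    have h8 : 3 / 2 ≤ (Q / P) ^ f := by
      rw [div_pow, le_div_iff₀ h9]
      nlinarith
    exact h8.trans (pow_le_pow_right₀ hr (Nat.le_add_left f e))

theorem sz : S_SZ := by
  intro n hn F hF hprod P Q hP hPQ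
  classical
  have h0 : n * (n - 1) = 2 * ∏ p ∈ F, p := by
    have h1 := Nat.choose_two_right n
    have h2 := Nat.div_mul_cancel (Nat.even_mul_pred_self n).two_dvd
    rw [← hprod, h1]
    omega
  set S := F.filter (fun p => p ∣ n) with hS
  set T := F.filter (fun p => ¬ p ∣ n) with hT
  have hST : (∏ p ∈ S, p) * ∏ p ∈ T, p = ∏ p ∈ F, p := prod_filter_mul_prod_filter_not F _ _
  have hcard : S.card + T.card = F.card := Finset.card_filter_add_card_filter_not (s := F) _
  have hSd : ∏ p ∈ S, p ∣ n := prod_primes_dvd n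
    (fun p hp => (hF p (mem_filter.1 hp).1).prime) (fun p hp => (mem_filter.1 hp).2)
  have hTd : ∏ p ∈ T, p ∣ n - 1 := prod_primes_dvd (n - 1)
    (fun p hp => (hF p (mem_filter.1 hp).1).prime) (fun p hp => by
      have hp1 := (mem_filter.1 hp)
      have h3 : p ∣ n * (n - 1) := by
        rw [h0]
        exact (dvd_prod_of_mem (fun p => p) hp1.1).mul_left 2
      exact ((hF p hp1.1).dvd_mul.1 h3).resolve_left hp1.2)
  obtain ⟨a, ha⟩ := hSd
  obtain ⟨b, hb⟩ := hTd
  set x := ∏ p ∈ S, p with hx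
  set y := ∏ p ∈ T, p with hy
  have hx0 : 0 < x := by
    rcases Nat.eq_zero_or_pos x with h | h
    · rw [h, zero_mul] at ha; omega
    · exact h
  have hy0 : 0 < y := by
    rcases Nat.eq_zero_or_pos y with h | h
    · rw [h, zero_mul] at hb; omega
    · exact h
  have hab : a * b = 2 := by
    have h3 : x * y * (a * b) = x * y * 2 := by
      rw [hST]
      calc (∏ p ∈ F, p) * (a * b) = (x * y) * (a * b) := by rw [hST]
        _ = (x * a) * (y * b) := by ring
        _ = n * (n - 1) := by rw [← ha, ← hb]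
        _ = (∏ p ∈ F, p) * 2 := by rw [h0, mul_comm]
    exact Nat.eq_of_mul_eq_mul_left (Nat.mul_pos hx0 hy0) h3
  have hne : F.Nonempty := by
    rw [nonempty_iff_ne_empty]
    intro he
    rw [he, prod_empty] at h0
    have : 4 * 3 ≤ n * (n - 1) := Nat.mul_le_mul hn (by omega)
    omega
  obtain ⟨p₀, hp₀⟩ := hne
  have hPQ' : P ≤ Q := (hPQ p₀ hp₀).1.trans (hPQ p₀ hp₀).2
  have hxP : P ^ S.card ≤ x := Finset.pow_card_le_prod S _ P fun p hp => (hPQ p (mem_filter.1 hp).1).1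
  have hxQ : x ≤ Q ^ S.card := Finset.prod_le_pow_card S _ Q fun p hp => (hPQ p (mem_filter.1 hp).1).2
  have hyP : P ^ T.card ≤ y := Finset.pow_card_le_prod T _ P fun p hp => (hPQ p (mem_filter.1 hp).1).1
  have hyQ : y ≤ Q ^ T.card := Finset.prod_le_pow_card T _ Q fun p hp => (hPQ p (mem_filter.1 hp).1).2
  have hP5 : (5 : ℝ) ≤ P := by exact_mod_cast hP
  have hPQR : (P : ℝ) ≤ Q := by exact_mod_cast hPQ'
  have hxPR : (P : ℝ) ^ S.card ≤ x := by exact_mod_cast hxP
  have hxQR : (x : ℝ) ≤ (Q : ℝ) ^ S.card := by exact_mod_cast hxQ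
  have hyPR : (P : ℝ) ^ T.card ≤ y := by exact_mod_cast hyP
  have hyQR : (y : ℝ) ≤ (Q : ℝ) ^ T.card := by exact_mod_cast hyQ
  have ha2 : a ∣ 2 := ⟨b, hab.symm⟩
  rcases (Nat.dvd_prime Nat.prime_two).1 ha2 with h | h
  · -- `a = 1`, `b = 2`
    subst h
    have hb2 : b = 2 := by omega
    subst hb2
    have h5 : x = 2 * y + 1 := by omega
    have h6 : (x : ℝ) = 2 * y + 1 := by exact_mod_cast h5
    have h7 : (1 : ℝ) ≤ y := by exact_mod_cast hy0
    have := core (e := S.card) (f := T.card) (u := x) (v := y) hP5 hPQR (by linarith) (by linarith)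
      hxQR hxPR hyQR hyPR
    rwa [hcard] at this
  · -- `a = 2`, `b = 1`
    subst h
    have hb1 : b = 1 := by omega
    subst hb1
    have h5 : y + 1 = 2 * x := by omega
    have h6 : (y : ℝ) + 1 = 2 * x := by exact_mod_cast h5
    have h7 : 2 ≤ x := by omega
    have h8 : (2 : ℝ) ≤ x := by exact_mod_cast h7
    have := core (e := T.card) (f := S.card) (u := y) (v := x) hP5 hPQR (by linarith) (by linarith)
      hyQR hyPR hxQR hxPR
    rwa [add_comm, hcard] at this

end Pool.Agent.K9h59.BC.Sz71
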