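import Pool.Agent.K9h59.BC.Stm

set_option autoImplicit false

/-! Leaf SZ of `K9h59/BC/Stm.lean`. -/

namespace Pool.Agent.K9h59.BC.SZ74

open Finset

/-- `prod ≤ Q ^ card` and `P ^ card ≤ prod` -/
lemma pr_le {F : Finset ℕ} {Q : ℕ} (h : ∀ p ∈ F, p ≤ Q) : ∏ p ∈ F, p ≤ Q ^ F.card :=
  Finset.prod_le_pow_card F (fun p => p) Q h

lemma le_pr {F : Finset ℕ} {P : ℕ} (h : ∀ p ∈ F, P ≤ p) : P ^ F.card ≤ ∏ p ∈ F, p :=
  Finset.pow_card_le_prod F (fun p => p) P h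

/-- the comparison -/
lemma cmp (P Q : ℕ) (hP : 5 ≤ P) (hPQ : P ≤ Q) (x y : ℝ) (s t : ℕ) (hx0 : (P : ℝ) ^ s ≤ x)
    (hx1 : x ≤ (Q : ℝ) ^ s) (hy0 : (P : ℝ) ^ t ≤ y) (hy1 : y ≤ (Q : ℝ) ^ t)
    (hxy : 3 / 2 * x ≤ y) (hyx : y ≤ 8 / 3 * x) : (3 / 2 : ℝ) ≤ ((Q : ℝ) / P) ^ (s + t) := by
  have hP0 : (0 : ℝ) < P := by
    have : 0 < P := by omega
    exact_mod_cast this
  have hPQ' : (P : ℝ) ≤ Q := by exact_mod_cast hPQ
  have hP5 : (5 : ℝ) ≤ P := by exact_mod_cast hP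
  have h1 : (1 : ℝ) ≤ (Q : ℝ) / P := by rw [le_div_iff₀ hP0]; linarith
  have hP1 : (1 : ℝ) ≤ P := by linarith
  rcases lt_trichotomy s t with h | h | h
  · -- `t ≥ s + 1`
    have h2 : (P : ℝ) ^ (s + 1) ≤ (P : ℝ) ^ t := pow_le_pow_right₀ hP1 h
    have h3 : (P : ℝ) ^ s * P ≤ 8 / 3 * (Q : ℝ) ^ s := by
      rw [← pow_succ]
      linarith
    have h4 : 3 / 8 * (P : ℝ) ≤ ((Q : ℝ) / P) ^ s := by
      rw [div_pow, le_div_iff₀ (by positivity)]
      linarith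
    calc (3 / 2 : ℝ) ≤ 3 / 8 * P := by linarith
      _ ≤ ((Q : ℝ) / P) ^ s := h4
      _ ≤ _ := pow_le_pow_right₀ h1 (by omega)
  · subst h
    have h4 : (3 / 2 : ℝ) ≤ ((Q : ℝ) / P) ^ s := by
      rw [div_pow, le_div_iff₀ (by positivity)]
      linarith
    exact h4.trans (pow_le_pow_right₀ h1 (by omega))
  · have h2 : (P : ℝ) ^ (t + 1) ≤ (P : ℝ) ^ s := pow_le_pow_right₀ hP1 h
    have h3 : (P : ℝ) ^ t * P ≤ 2 / 3 * (Q : ℝ) ^ t := by
      rw [← pow_succ]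
      linarith
    have h4 : 3 / 2 * (P : ℝ) ≤ ((Q : ℝ) / P) ^ t := by
      rw [div_pow, le_div_iff₀ (by positivity)]
      linarith
    calc (3 / 2 : ℝ) ≤ 3 / 2 * P := by linarith
      _ ≤ ((Q : ℝ) / P) ^ t := h4
      _ ≤ _ := pow_le_pow_right₀ h1 (by omega)

theorem sz : S_SZ := by
  classical
  intro n hn F hF hprod P Q hP hPQ
  -- the product
  have h2 : n * (n - 1) = 2 * ∏ p ∈ F, p := by
    rw [← hprod, Nat.choose_two_right]
    have := Nat.even_mul_pred_self n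
    rw [Nat.mul_div_cancel' this.two_dvd]
  set S := F.filter fun p => p ∣ n with hS
  set T := F.filter fun p => ¬ p ∣ n with hT
  have hST : (∏ p ∈ S, p) * ∏ p ∈ T, p = ∏ p ∈ F, p :=
    Finset.prod_filter_mul_prod_filter_not F (fun p => p ∣ n) fun p => p
  have hcard : S.card + T.card = F.card := Finset.card_filter_add_card_filter_not (s := F) _
  have hSd : ∏ p ∈ S, p ∣ n := by
    refine Finset.prod_primes_dvd n (fun p hp => (hF p (mem_filter.1 hp).1).prime) fun p hp =>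
      (mem_filter.1 hp).2
  have hTd : ∏ p ∈ T, p ∣ n - 1 := by
    refine Finset.prod_primes_dvd (n - 1) (fun p hp => (hF p (mem_filter.1 hp).1).prime)
      fun p hp => ?_
    obtain ⟨h3, h4⟩ := mem_filter.1 hp
    have h5 : p ∣ n * (n - 1) := by
      rw [h2]
      exact Dvd.dvd.mul_left (dvd_prod_of_mem (fun p => p) h3) 2
    exact ((hF p h3).dvd_mul.1 h5).resolve_left h4
  obtain ⟨a, ha⟩ := hSd
  obtain ⟨b, hb⟩ := hTd
  have hFne : F.Nonempty := by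
    rw [Finset.nonempty_iff_ne_empty]
    rintro rfl
    simp only [Finset.prod_empty, mul_one] at h2
    have : 4 * 3 ≤ n * (n - 1) := Nat.mul_le_mul hn (by omega)
    omega
  obtain ⟨p0, hp0⟩ := hFne
  have hPQ0 : P ≤ Q := (hPQ p0 hp0).1.trans (hPQ p0 hp0).2
  have hx : 0 < ∏ p ∈ S, p := Finset.prod_pos fun p hp => (hF p (mem_filter.1 hp).1).pos
  have hy : 0 < ∏ p ∈ T, p := Finset.prod_pos fun p hp => (hF p (mem_filter.1 hp).1).pos
  have hab : a * b = 2 := by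
    rw [← hST] at h2
    have h3 : ((∏ p ∈ S, p) * ∏ p ∈ T, p) * (a * b) = ((∏ p ∈ S, p) * ∏ p ∈ T, p) * 2 := by
      calc ((∏ p ∈ S, p) * ∏ p ∈ T, p) * (a * b)
          = ((∏ p ∈ S, p) * a) * ((∏ p ∈ T, p) * b) := by ring
        _ = n * (n - 1) := by rw [← ha, ← hb]
        _ = _ := by rw [h2]; ring
    exact Nat.eq_of_mul_eq_mul_left (Nat.mul_pos hx hy) h3
  have hx0 : P ^ S.card ≤ ∏ p ∈ S, p := le_pr fun p hp => (hPQ p (mem_filter.1 hp).1).1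
  have hx1 : ∏ p ∈ S, p ≤ Q ^ S.card := pr_le fun p hp => (hPQ p (mem_filter.1 hp).1).2
  have hy0 : P ^ T.card ≤ ∏ p ∈ T, p := le_pr fun p hp => (hPQ p (mem_filter.1 hp).1).1
  have hy1 : ∏ p ∈ T, p ≤ Q ^ T.card := pr_le fun p hp => (hPQ p (mem_filter.1 hp).1).2
  set x := ∏ p ∈ S, p with hxd
  set y := ∏ p ∈ T, p with hyd
  have ex0 : (P : ℝ) ^ S.card ≤ x := by exact_mod_cast hx0
  have ex1 : (x : ℝ) ≤ (Q : ℝ) ^ S.card := by exact_mod_cast hx1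
  have ey0 : (P : ℝ) ^ T.card ≤ y := by exact_mod_cast hy0
  have ey1 : (y : ℝ) ≤ (Q : ℝ) ^ T.card := by exact_mod_cast hy1
  have hn4 : (4 : ℝ) ≤ n := by exact_mod_cast hn
  have ea : (n : ℝ) = x * a := by exact_mod_cast ha
  have eb : (n : ℝ) - 1 = y * b := by
    have : ((n - 1 : ℕ) : ℝ) = (y : ℝ) * b := by exact_mod_cast hb
    rw [← this, Nat.cast_sub (by omega), Nat.cast_one]
  have hcases : (a = 2 ∧ b = 1) ∨ (a = 1 ∧ b = 2) := by
    have h3 : a ∣ 2 := ⟨b, hab.symm⟩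
    rcases (Nat.dvd_prime Nat.prime_two).1 h3 with h4 | h4
    · right
      subst h4
      exact ⟨rfl, by omega⟩
    · left
      subst h4
      exact ⟨rfl, by omega⟩
  rcases hcases with ⟨rfl, rfl⟩ | ⟨rfl, rfl⟩
  · -- `n = 2 x`, `n - 1 = y`
    push_cast at ea eb
    rw [← hcard]
    exact cmp P Q hP hPQ0 x y S.card T.card ex0 ex1 ey0 ey1 (by linarith) (by linarith)
  · -- `n = x`, `n - 1 = 2 y`
    push_cast at ea eb
    rw [← hcard, add_comm]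
    exact cmp P Q hP hPQ0 y x T.card S.card ey0 ey1 ex0 ex1 (by linarith) (by linarith)

end Pool.Agent.K9h59.BC.SZ74
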