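import Pool.Agent.K9h59.BC.Stm

set_option autoImplicit false

namespace Pool.Agent.K9h59.BC

open Finset

theorem sz95 : S_SZ := by
  intro n hn F hF hch P Q hP hPQ
  classical
  have hmul : n * (n - 1) = 2 * ∏ p ∈ F, p := by
    rw [← hch, Nat.choose_two_right]
    exact (Nat.mul_div_cancel' (Nat.even_mul_pred_self n).two_dvd).symm
  set S := F.filter (· ∣ n) with hS
  set T := F.filter (fun p => ¬ p ∣ n) with hT
  have hST : (∏ p ∈ S, p) * ∏ p ∈ T, p = ∏ p ∈ F, p := prod_filter_mul_prod_filter_not F _ _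
  have hcard : S.card + T.card = F.card := card_filter_add_card_filter_not _
  have hA : ∏ p ∈ S, p ∣ n := by
    refine prod_primes_dvd _ (fun p hp => (hF p (mem_filter.1 hp).1).prime) fun p hp => (mem_filter.1 hp).2
  have hB : ∏ p ∈ T, p ∣ n - 1 := by
    refine prod_primes_dvd _ (fun p hp => (hF p (mem_filter.1 hp).1).prime) fun p hp => ?_
    obtain ⟨h1, h2⟩ := mem_filter.1 hp
    have h3 : p ∣ n * (n - 1) := by
      rw [hmul]
      exact (dvd_prod_of_mem _ h1).mul_left 2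
    exact ((hF p h1).dvd_mul.1 h3).resolve_left h2
  obtain ⟨a, ha⟩ := hA
  obtain ⟨b, hb⟩ := hB
  have hA0 : P ^ S.card ≤ ∏ p ∈ S, p := pow_card_le_prod _ _ _ fun p hp => (hPQ p (mem_filter.1 hp).1).1
  have hA1 : ∏ p ∈ S, p ≤ Q ^ S.card := prod_le_pow_card _ _ _ fun p hp => (hPQ p (mem_filter.1 hp).1).2
  have hB0 : P ^ T.card ≤ ∏ p ∈ T, p := pow_card_le_prod _ _ _ fun p hp => (hPQ p (mem_filter.1 hp).1).1
  have hB1 : ∏ p ∈ T, p ≤ Q ^ T.card := prod_le_pow_card _ _ _ fun p hp => (hPQ p (mem_filter.1 hp).1).2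
  have hPp : ∀ e, 0 < P ^ e := fun e => pow_pos (by omega) e
  have hab : a * b = 2 := by
    have h1 : (∏ p ∈ S, p) * (∏ p ∈ T, p) * (a * b) = (∏ p ∈ S, p) * (∏ p ∈ T, p) * 2 := by
      calc (∏ p ∈ S, p) * (∏ p ∈ T, p) * (a * b) = n * (n - 1) := by
            conv_rhs => rw [hb]
            conv_rhs => rw [ha]
            ring
        _ = _ := by rw [hmul, ← hST]; ring
    have h2 : 0 < (∏ p ∈ S, p) * ∏ p ∈ T, p :=
      Nat.mul_pos (lt_of_lt_of_le (hPp _) hA0) (lt_of_lt_of_le (hPp _) hB0)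
    exact Nat.eq_of_mul_eq_mul_left h2 h1
  set A := ∏ p ∈ S, p with hAdef
  set B := ∏ p ∈ T, p with hBdef
  have key : ∃ e, e ≤ F.card ∧ 3 * P ^ e ≤ 2 * Q ^ e := by
    have hab' : (a = 2 ∧ b = 1) ∨ (a = 1 ∧ b = 2) := by
      have h1 : a ∣ 2 := ⟨b, hab.symm⟩
      have h2 : a ≤ 2 := Nat.le_of_dvd (by norm_num) h1
      have h3 : a ≠ 0 := by
        rintro rfl
        simp at hab
      interval_cases a <;> omega
    rcases lt_trichotomy S.card T.card with h | h | h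
    · refine ⟨S.card, by omega, ?_⟩
      have h1 : P ^ (S.card + 1) ≤ P ^ T.card := Nat.pow_le_pow_right (by omega) h
      rw [pow_succ] at h1
      have h2 : P ^ S.card * 5 ≤ P ^ S.card * P := Nat.mul_le_mul_left _ hP
      rcases hab' with ⟨rfl, rfl⟩ | ⟨rfl, rfl⟩ <;> omega
    · refine ⟨S.card, by omega, ?_⟩
      rw [← h] at hB0 hB1
      rcases hab' with ⟨rfl, rfl⟩ | ⟨rfl, rfl⟩ <;> omega
    · refine ⟨T.card, by omega, ?_⟩
      have h1 : P ^ (T.card + 1) ≤ P ^ S.card := Nat.pow_le_pow_right (by omega) h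
      rw [pow_succ] at h1
      have h2 : P ^ T.card * 5 ≤ P ^ T.card * P := Nat.mul_le_mul_left _ hP
      rcases hab' with ⟨rfl, rfl⟩ | ⟨rfl, rfl⟩ <;> omega
  obtain ⟨e, he, hk⟩ := key
  have hne : F.Nonempty := by
    rw [nonempty_iff_ne_empty]
    rintro rfl
    rw [prod_empty] at hmul
    have h1 : 4 * 3 ≤ n * (n - 1) := Nat.mul_le_mul hn (by omega)
    omega
  obtain ⟨p, hp⟩ := hne
  have hPQ' : P ≤ Q := (hPQ p hp).1.trans (hPQ p hp).2
  have hPr : (0 : ℝ) < P := by exact_mod_cast (by omega : 0 < P)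
  have h1 : (1 : ℝ) ≤ (Q : ℝ) / P := by
    rw [le_div_iff₀ hPr, one_mul]
    exact_mod_cast hPQ'
  refine le_trans ?_ (pow_le_pow_right₀ h1 he)
  rw [div_pow, le_div_iff₀ (pow_pos hPr e)]
  have h2 : (3 : ℝ) * (P : ℝ) ^ e ≤ 2 * (Q : ℝ) ^ e := by exact_mod_cast hk
  linarith

end Pool.Agent.K9h59.BC
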