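import Pool.Agent.K9h59.BC.Stm

/-! # SZ: size lemma (second copy, helper98) -/

set_option autoImplicit false
open Finset

namespace Pool.Agent.K9h59.BC

namespace SZ98

theorem fin (P Q : ℝ) (hP : 0 < P) (hPQ : P ≤ Q) (s f : ℕ) (hsf : s ≤ f)
    (h : 3 / 2 * P ^ s ≤ Q ^ s) : (3 / 2 : ℝ) ≤ (Q / P) ^ f := by
  have h1 : (1 : ℝ) ≤ Q / P := by rwa [one_le_div hP]
  have h2 : (3 / 2 : ℝ) ≤ (Q / P) ^ s := by
    rw [div_pow, le_div_iff₀ (pow_pos hP s)]
    exact h
  exact h2.trans (pow_le_pow_right₀ h1 hsf)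

theorem sz : S_SZ := by
  intro n hn F hF hprod P Q hP hPQ
  classical
  have hmul : n * (n - 1) = 2 * ∏ p ∈ F, p := by
    rw [← hprod, Nat.choose_two_right]
    rw [Nat.mul_div_cancel' (Nat.even_mul_pred_self n).two_dvd]
  have hFne : F.Nonempty := by
    rw [Finset.nonempty_iff_ne_empty]
    rintro rfl
    rw [prod_empty] at hmul
    nlinarith [Nat.sub_add_cancel (show 1 ≤ n by omega)]
  obtain ⟨p0, hp0⟩ := hFne
  have hPQ' : P ≤ Q := (hPQ p0 hp0).1.trans (hPQ p0 hp0).2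
  set S := F.filter (fun p => p ∣ n) with hS
  set T := F.filter (fun p => ¬ p ∣ n) with hT
  have hST : (∏ p ∈ S, p) * ∏ p ∈ T, p = ∏ p ∈ F, p := prod_filter_mul_prod_filter_not F _ _
  have hcard : S.card + T.card = F.card := card_filter_add_card_filter_not _
  have hSp : ∀ p ∈ S, p.Prime ∧ P ≤ p ∧ p ≤ Q ∧ p ∣ n := by
    intro p hp
    rw [hS, mem_filter] at hp
    exact ⟨hF p hp.1, (hPQ p hp.1).1, (hPQ p hp.1).2, hp.2⟩
  have hTp : ∀ p ∈ T, p.Prime ∧ P ≤ p ∧ p ≤ Q ∧ p ∣ n - 1 := by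
    intro p hp
    rw [hT, mem_filter] at hp
    refine ⟨hF p hp.1, (hPQ p hp.1).1, (hPQ p hp.1).2, ?_⟩
    have h1 : p ∣ n * (n - 1) := by
      rw [hmul]
      exact Dvd.dvd.mul_left (dvd_prod_of_mem _ hp.1) 2
    exact ((hF p hp.1).dvd_mul.mp h1).resolve_left hp.2
  obtain ⟨a, ha⟩ : ∏ p ∈ S, p ∣ n := Finset.prod_primes_dvd n (fun p hp => (hSp p hp).1.prime) fun p hp => (hSp p hp).2.2.2
  obtain ⟨b, hb⟩ : ∏ p ∈ T, p ∣ n - 1 :=
    Finset.prod_primes_dvd (n - 1) (fun p hp => (hTp p hp).1.prime) fun p hp => (hTp p hp).2.2.2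
  set A := ∏ p ∈ S, p with hA
  set B := ∏ p ∈ T, p with hB
  have hA0 : 0 < A := prod_pos fun p hp => (hSp p hp).1.pos
  have hB0 : 0 < B := prod_pos fun p hp => (hTp p hp).1.pos
  have hab : a * b = 2 := by
    rw [ha] at hmul
    have h2 : A * a - 1 = B * b := by rw [← ha]; exact hb
    rw [h2, ← hST] at hmul
    have h3 : (A * B) * (a * b) = (A * B) * 2 := by linarith [hmul]
    exact Nat.eq_of_mul_eq_mul_left (Nat.mul_pos hA0 hB0) h3
  have hA1 : P ^ S.card ≤ A := by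
    rw [hA, ← prod_const]
    exact prod_le_prod' fun p hp => (hSp p hp).2.1
  have hA2 : A ≤ Q ^ S.card := by
    rw [hA, ← prod_const]
    exact prod_le_prod' fun p hp => (hSp p hp).2.2.1
  have hB1 : P ^ T.card ≤ B := by
    rw [hB, ← prod_const]
    exact prod_le_prod' fun p hp => (hTp p hp).2.1
  have hB2 : B ≤ Q ^ T.card := by
    rw [hB, ← prod_const]
    exact prod_le_prod' fun p hp => (hTp p hp).2.2.1
  have rA1 : (P : ℝ) ^ S.card ≤ A := by exact_mod_cast hA1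
  have rA2 : (A : ℝ) ≤ (Q : ℝ) ^ S.card := by exact_mod_cast hA2
  have rB1 : (P : ℝ) ^ T.card ≤ B := by exact_mod_cast hB1
  have rB2 : (B : ℝ) ≤ (Q : ℝ) ^ T.card := by exact_mod_cast hB2
  have hP0 : (0 : ℝ) < P := by exact_mod_cast (by omega : 0 < P)
  have hP5 : (5 : ℝ) ≤ P := by exact_mod_cast hP
  have hPQr : (P : ℝ) ≤ Q := by exact_mod_cast hPQ'
  -- the two cases
  have hcase : (n = 2 * A ∧ n - 1 = B) ∨ (n = A ∧ n - 1 = 2 * B) := by
    have ha2 : a ∣ 2 := Dvd.intro _ hab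
    have := (Nat.dvd_prime Nat.prime_two).mp ha2
    rcases this with h | h
    · right
      subst h
      have hb' : b = 2 := by omega
      subst hb'
      exact ⟨by omega, by omega⟩
    · left
      subst h
      have hb' : b = 1 := by omega
      subst hb'
      exact ⟨by omega, by omega⟩
  -- consequences
  have c1 : (A : ℝ) ≤ 8 / 3 * B := by
    have : 3 * A ≤ 8 * B := by omega
    have h : (3 : ℝ) * A ≤ 8 * B := by exact_mod_cast this
    linarith
  have c2 : (B : ℝ) ≤ 2 * A := by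
    have : B ≤ 2 * A := by omega
    exact_mod_cast this
  rcases lt_trichotomy S.card T.card with h | h | h
  · refine fin P Q hP0 hPQr S.card F.card (by omega) ?_
    have h1 : (P : ℝ) ^ S.card * P ≤ (P : ℝ) ^ T.card := by
      rw [← pow_succ]
      exact pow_le_pow_right₀ (by linarith) h
    have h2 : (0 : ℝ) < (P : ℝ) ^ S.card := pow_pos hP0 _
    nlinarith
  · refine fin P Q hP0 hPQr S.card F.card (by omega) ?_
    rcases hcase with ⟨h1, h2⟩ | ⟨h1, h2⟩
    · have h3 : 3 * A ≤ 2 * B := by omega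
      have h4 : (3 : ℝ) * A ≤ 2 * B := by exact_mod_cast h3
      rw [← h] at rB2
      linarith
    · have h3 : 3 * B ≤ 2 * A := by omega
      have h4 : (3 : ℝ) * B ≤ 2 * A := by exact_mod_cast h3
      rw [← h] at rB1
      linarith
  · refine fin P Q hP0 hPQr T.card F.card (by omega) ?_
    have h1 : (P : ℝ) ^ T.card * P ≤ (P : ℝ) ^ S.card := by
      rw [← pow_succ]
      exact pow_le_pow_right₀ (by linarith) h
    have h2 : (0 : ℝ) < (P : ℝ) ^ T.card := pow_pos hP0 _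
    nlinarith

end SZ98
end Pool.Agent.K9h59.BC
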